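import Mathlib
import Pool.Agent.H471R3.BGMontel
import Pool.Agent.H158I.BGMV

/-!
# Bergman spaces, Bergman projections and Hankel operators
-/

set_option autoImplicit false

open MeasureTheory Topology Filter Set Metric TopologicalSpace
open scoped ENNReal NNReal ComplexConjugate

namespace Pool.Agent.K3h62.HS

variable {n : ℕ}

/-- The space `L²(Ω)`, `Ω ⊆ ℂⁿ` open, with Lebesgue measure. -/
abbrev LL (Ω : Opens (Fin n → ℂ)) : Type :=
  Lp ℂ 2 ((volume : Measure (Fin n → ℂ)).restrict (Ω : Set (Fin n → ℂ)))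

/-- The Bergman space `A²(Ω)`: the elements of `L²(Ω)` which are (almost everywhere on `Ω` equal to)
holomorphic functions on `Ω`. -/
def bergman (Ω : Opens (Fin n → ℂ)) : Submodule ℂ (LL Ω) where
  carrier := {g | ∃ h : (Fin n → ℂ) → ℂ, DifferentiableOn ℂ h Ω ∧
    g =ᵐ[(volume : Measure (Fin n → ℂ)).restrict (Ω : Set (Fin n → ℂ))] h}
  add_mem' := by
    rintro a b ⟨h, hd, he⟩ ⟨k, kd, ke⟩
    refine ⟨fun z => h z + k z, hd.add kd, ?_⟩
    filter_upwards [Lp.coeFn_add a b, he, ke] with z h1 h2 h3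
    rw [h1, Pi.add_apply, h2, h3]
  zero_mem' := ⟨fun _ => 0, differentiableOn_const _, Lp.coeFn_zero _ _ _⟩
  smul_mem' := by
    rintro c a ⟨h, hd, he⟩
    refine ⟨fun z => c • h z, hd.const_smul c, ?_⟩
    filter_upwards [Lp.coeFn_smul c a, he] with z h1 h2
    rw [h1, Pi.smul_apply, h2]

lemma lintegral_sq {α : Type*} [MeasurableSpace α] {μ : Measure α} (g : Lp ℂ 2 μ) :
    ∫⁻ z, ‖g z‖ₑ ^ 2 ∂μ = ‖g‖ₑ ^ 2 := by
  rw [Lp.enorm_def, eLpNorm_eq_lintegral_rpow_enorm_toReal (by norm_num) (by norm_num)]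
  simp only [ENNReal.toReal_ofNat]
  rw [← ENNReal.rpow_natCast, ← ENNReal.rpow_mul]
  norm_num

/-- The Bergman space is closed in `L²(Ω)`. -/
theorem isClosed_bergman (Ω : Opens (Fin n → ℂ)) : IsClosed (bergman Ω : Set (LL Ω)) := by
  apply IsSeqClosed.isClosed
  intro g G hg hG
  choose h hd he using hg
  obtain ⟨C, hC⟩ := hG.norm.bddAbove_range
  have hbound : ∀ k, ∫⁻ z in (Ω : Set (Fin n → ℂ)), ‖h k z‖ₑ ^ 2 ≤ ((Real.toNNReal (C ^ 2) : ℝ≥0) : ℝ≥0∞) := by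
    intro k
    have h1 : ∫⁻ z in (Ω : Set (Fin n → ℂ)), ‖h k z‖ₑ ^ 2 =
        ∫⁻ z in (Ω : Set (Fin n → ℂ)), ‖g k z‖ₑ ^ 2 :=
      lintegral_congr_ae ((he k).mono fun z hz => by simp only [hz])
    rw [h1, lintegral_sq, ← ofReal_norm, ← ENNReal.ofReal_pow (norm_nonneg _)]
    apply ENNReal.ofReal_le_ofReal
    have h2 : ‖g k‖ ≤ C := hC ⟨k, rfl⟩
    gcongr
  obtain ⟨G', φ, hφ, hGd, hunif⟩ := Pool.Agent.H301X.BG.taskMontel Pool.Agent.H158I.BGMV.taskMV n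
    (Ω : Set (Fin n → ℂ)) h _ Ω.isOpen hd hbound
  refine ⟨G', hGd, ?_⟩
  have h3 : Tendsto (fun k => g (φ k)) atTop (𝓝 G) := hG.comp hφ.tendsto_atTop
  have h4 := tendstoInMeasure_of_tendsto_Lp h3
  obtain ⟨ψ, hψ, hae⟩ := h4.exists_seq_tendsto_ae
  have h5 : ∀ᵐ z ∂((volume : Measure (Fin n → ℂ)).restrict (Ω : Set (Fin n → ℂ))), ∀ k, g k z = h k z :=
    ae_all_iff.2 he
  filter_upwards [hae, h5, ae_restrict_mem Ω.isOpen.measurableSet] with z h6 h7 h8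
  have h9 : Tendsto (fun k => h (φ k) z) atTop (𝓝 (G' z)) :=
    (hunif {z} isCompact_singleton (singleton_subset_iff.2 h8)).tendsto_at rfl
  have h10 := h9.comp hψ.tendsto_atTop
  have h11 : (fun i => g (φ (ψ i)) z) = (fun k => h (φ k) z) ∘ ψ := by
    funext i; simp [h7]
  rw [h11] at h6
  exact tendsto_nhds_unique h6 h10

instance (Ω : Opens (Fin n → ℂ)) : CompleteSpace (bergman Ω) :=
  (isClosed_bergman Ω).completeSpace_coe

/-- The Bergman projection `P : L²(Ω) → L²(Ω)`, the orthogonal projection onto `A²(Ω)`. -/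
noncomputable def bergmanProj (Ω : Opens (Fin n → ℂ)) : LL Ω →L[ℂ] LL Ω := (bergman Ω).starProjection

/-- The domain `{g ∈ A²(Ω) : φ g ∈ L²(Ω)}` of the Hankel operator with the symbol `φ`. -/
def hankelDom (Ω : Opens (Fin n → ℂ)) (φ : (Fin n → ℂ) → ℂ) : Set (bergman Ω) :=
  {g | MemLp (fun z => φ z * (g : LL Ω) z) 2
    ((volume : Measure (Fin n → ℂ)).restrict (Ω : Set (Fin n → ℂ)))}

/-- The Hankel operator `H_φ g = (I - P)(φ g)` for `g` in its domain. -/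
noncomputable def hankel (Ω : Opens (Fin n → ℂ)) (φ : (Fin n → ℂ) → ℂ) (g : bergman Ω)
    (hg : g ∈ hankelDom Ω φ) : LL Ω :=
  (MemLp.toLp _ hg : LL Ω) - bergmanProj Ω (MemLp.toLp _ hg)

/-- A bounded operator `T` on `A²(Ω)` is a Hilbert–Schmidt operator: `∑ ‖T e_k‖² < ∞` for an
orthonormal basis `(e_k)` of `A²(Ω)`. -/
def IsHilbertSchmidt {Ω : Opens (Fin n → ℂ)} (T : bergman Ω →L[ℂ] LL Ω) : Prop :=
  ∃ (ι : Type) (e : HilbertBasis ι ℂ (bergman Ω)), Summable fun k => ‖T (e k)‖ ^ 2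

/-- The Hankel operator `H_φ` is Hilbert–Schmidt: its domain is dense in `A²(Ω)` and it extends to a
Hilbert–Schmidt operator `A²(Ω) → L²(Ω)`. -/
def HankelHSL (Ω : Opens (Fin n → ℂ)) (φ : (Fin n → ℂ) → ℂ) : Prop :=
  Dense (hankelDom Ω φ) ∧ ∃ T : bergman Ω →L[ℂ] LL Ω,
    (∀ g (hg : g ∈ hankelDom Ω φ), T g = hankel Ω φ g hg) ∧ IsHilbertSchmidt T

end Pool.Agent.K3h62.HS
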