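import Mathlib

/-!
# Hankel operators on Bergman spaces: definitions

All functions are functions on `ℂⁿ` of which only the values on `Ω` matter.
-/

set_option autoImplicit false

open MeasureTheory
open scoped ComplexConjugate

namespace Pool.Agent.K3h62.HS

/-- Lebesgue measure on `Ω ⊆ ℂⁿ`. -/
noncomputable def leb {n : ℕ} (Ω : Set (Fin n → ℂ)) : Measure (Fin n → ℂ) :=
  (volume : Measure (Fin n → ℂ)).restrict Ω

/-- `g ∈ L²(Ω)` -/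
def MemL2 {n : ℕ} (Ω : Set (Fin n → ℂ)) (g : (Fin n → ℂ) → ℂ) : Prop := MemLp g 2 (leb Ω)

/-- The inner product `∫_Ω g conj(h)` of `L²(Ω)`. -/
noncomputable def ip {n : ℕ} (Ω : Set (Fin n → ℂ)) (g h : (Fin n → ℂ) → ℂ) : ℂ :=
  ∫ z, g z * conj (h z) ∂(leb Ω)

/-- The norm of `L²(Ω)`. -/
noncomputable def nrm {n : ℕ} (Ω : Set (Fin n → ℂ)) (g : (Fin n → ℂ) → ℂ) : ℝ :=
  (eLpNorm g 2 (leb Ω)).toReal

/-- `g` belongs to the Bergman space `A²(Ω)`: it is holomorphic on `Ω` and square integrable. -/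
def MemBergman {n : ℕ} (Ω : Set (Fin n → ℂ)) (g : (Fin n → ℂ) → ℂ) : Prop :=
  DifferentiableOn ℂ g Ω ∧ MemL2 Ω g

/-- `p = P u` is the orthogonal projection of `u ∈ L²(Ω)` to `A²(Ω)`: `p ∈ A²(Ω)` and `u - p` is
orthogonal to `A²(Ω)`. -/
def IsProj {n : ℕ} (Ω : Set (Fin n → ℂ)) (u p : (Fin n → ℂ) → ℂ) : Prop :=
  MemBergman Ω p ∧ ∀ h, MemBergman Ω h → ip Ω (fun z => u z - p z) h = 0

/-- `g` belongs to the domain of the Hankel operator with the symbol `φ`: `g ∈ A²(Ω)` and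
`φ g ∈ L²(Ω)`. -/
def HankelDom {n : ℕ} (Ω : Set (Fin n → ℂ)) (φ g : (Fin n → ℂ) → ℂ) : Prop :=
  MemBergman Ω g ∧ MemL2 Ω (fun z => φ z * g z)

/-- `v = H_φ g = (I - P)(φ g)`, where `g` is in the domain of `H_φ`. -/
def IsHankel {n : ℕ} (Ω : Set (Fin n → ℂ)) (φ g v : (Fin n → ℂ) → ℂ) : Prop :=
  HankelDom Ω φ g ∧ ∃ p, IsProj Ω (fun z => φ z * g z) p ∧
    ∀ᵐ z ∂(leb Ω), v z = φ z * g z - p z

/-- `T` is a bounded linear operator `A²(Ω) → L²(Ω)`. -/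
structure IsBoundedOp {n : ℕ} (Ω : Set (Fin n → ℂ))
    (T : ((Fin n → ℂ) → ℂ) → ((Fin n → ℂ) → ℂ)) : Prop where
  mem : ∀ g, MemBergman Ω g → MemL2 Ω (T g)
  linear : ∀ g h, MemBergman Ω g → MemBergman Ω h → ∀ a b : ℂ,
    ∀ᵐ z ∂(leb Ω), T (fun x => a * g x + b * h x) z = a * T g z + b * T h z
  bounded : ∃ C : ℝ, ∀ g, MemBergman Ω g → nrm Ω (T g) ≤ C * nrm Ω g

/-- `(e_k)` is an orthonormal basis of the Hilbert space `A²(Ω)`. -/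
structure IsOrthoBasis {n : ℕ} (Ω : Set (Fin n → ℂ)) {ι : Type} (e : ι → (Fin n → ℂ) → ℂ) :
    Prop where
  mem : ∀ k, MemBergman Ω (e k)
  norm_one : ∀ k, ip Ω (e k) (e k) = 1
  orthogonal : ∀ k l, k ≠ l → ip Ω (e k) (e l) = 0
  complete : ∀ g, MemBergman Ω g → (∀ k, ip Ω g (e k) = 0) → ∀ᵐ z ∂(leb Ω), g z = 0

/-- The Hankel operator `H_φ` is Hilbert–Schmidt: its domain is dense in `A²(Ω)`, and it extends to
a bounded operator `T : A²(Ω) → L²(Ω)` with `∑ ‖T e_k‖² < ∞` for an orthonormal basis `(e_k)` of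
`A²(Ω)`. -/
def HankelHS {n : ℕ} (Ω : Set (Fin n → ℂ)) (φ : (Fin n → ℂ) → ℂ) : Prop :=
  (∀ g, MemBergman Ω g → ∀ ε : ℝ, 0 < ε → ∃ h, HankelDom Ω φ h ∧ nrm Ω (fun z => g z - h z) < ε) ∧
  ∃ T : ((Fin n → ℂ) → ℂ) → ((Fin n → ℂ) → ℂ), IsBoundedOp Ω T ∧
    (∀ g v, IsHankel Ω φ g v → ∀ᵐ z ∂(leb Ω), T g z = v z) ∧
    ∃ (ι : Type) (e : ι → (Fin n → ℂ) → ℂ), IsOrthoBasis Ω e ∧
      Summable fun k => nrm Ω (T (e k)) ^ 2

/-- A Reinhardt domain: an open connected set invariant under the rotations of the coordinates. -/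
structure IsReinhardtDomain {n : ℕ} (Ω : Set (Fin n → ℂ)) : Prop where
  isOpen : IsOpen Ω
  connected : IsConnected Ω
  rotate : ∀ z ∈ Ω, ∀ θ : Fin n → ℝ, (fun j => Complex.exp (θ j * Complex.I) * z j) ∈ Ω

end Pool.Agent.K3h62.HS
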