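import Pool.Agent.K3h62.HS.Main
import Pool.Agent.K3h62.HS.Defs

/-!
# From operators on functions to operators on `L²`
-/

set_option autoImplicit false

open MeasureTheory Topology Filter Set Metric TopologicalSpace
open scoped ENNReal NNReal ComplexConjugate InnerProductSpace

namespace Pool.Agent.K3h62.HS

variable {n : ℕ}

/-- the class of a square integrable function -/
noncomputable def toL {Ω : Opens (Fin n → ℂ)} {g : (Fin n → ℂ) → ℂ}
    (hg : MemL2 (Ω : Set (Fin n → ℂ)) g) : LL Ω :=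
  MemLp.toLp g (show MemLp g 2 (mu Ω) from hg)

lemma toL_ae {Ω : Opens (Fin n → ℂ)} {g : (Fin n → ℂ) → ℂ}
    (hg : MemL2 (Ω : Set (Fin n → ℂ)) g) :
    ∀ᵐ z ∂(leb (Ω : Set (Fin n → ℂ))), toL hg z = g z :=
  MemLp.coeFn_toLp (show MemLp g 2 (mu Ω) from hg)

lemma sub_ae {Ω : Opens (Fin n → ℂ)} (u v : LL Ω) :
    ∀ᵐ z ∂(leb (Ω : Set (Fin n → ℂ))), (u - v) z = u z - v z := Lp.coeFn_sub u v

lemma add_ae {Ω : Opens (Fin n → ℂ)} (u v : LL Ω) :
    ∀ᵐ z ∂(leb (Ω : Set (Fin n → ℂ))), (u + v) z = u z + v z := Lp.coeFn_add u v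

lemma smul_ae {Ω : Opens (Fin n → ℂ)} (c : ℂ) (u : LL Ω) :
    ∀ᵐ z ∂(leb (Ω : Set (Fin n → ℂ))), (c • u) z = c * u z := Lp.coeFn_smul c u

lemma norm_toLp_eq {Ω : Opens (Fin n → ℂ)} {g : (Fin n → ℂ) → ℂ} (hg : MemL2 (Ω : Set (Fin n → ℂ)) g) :
    ‖(toL hg : LL Ω)‖ = nrm (Ω : Set (Fin n → ℂ)) g :=
  Lp.norm_toLp g (show MemLp g 2 (mu Ω) from hg)

lemma inner_eq_ip {Ω : Opens (Fin n → ℂ)} (u v : LL Ω) {g h : (Fin n → ℂ) → ℂ}
    (hg : ∀ᵐ z ∂(leb (Ω : Set (Fin n → ℂ))), v z = g z)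
    (hh : ∀ᵐ z ∂(leb (Ω : Set (Fin n → ℂ))), u z = h z) :
    ⟪u, v⟫_ℂ = ip (Ω : Set (Fin n → ℂ)) g h := by
  rw [L2.inner_def]
  refine integral_congr_ae ?_
  have hg' : ∀ᵐ z ∂(mu Ω), v z = g z := hg
  have hh' : ∀ᵐ z ∂(mu Ω), u z = h z := hh
  filter_upwards [hg', hh'] with z h1 h2
  rw [h1, h2, RCLike.inner_apply]

lemma inner_toLp_eq {Ω : Opens (Fin n → ℂ)} {g h : (Fin n → ℂ) → ℂ}
    (hg : MemL2 (Ω : Set (Fin n → ℂ)) g) (hh : MemL2 (Ω : Set (Fin n → ℂ)) h) :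
    ⟪(toL hh : LL Ω), (toL hg : LL Ω)⟫_ℂ = ip (Ω : Set (Fin n → ℂ)) g h :=
  inner_eq_ip _ _ (toL_ae hg) (toL_ae hh)

lemma nrm_congr {Ω : Set (Fin n → ℂ)} {g h : (Fin n → ℂ) → ℂ} (hgh : ∀ᵐ z ∂(leb Ω), g z = h z) :
    nrm Ω g = nrm Ω h := by
  unfold nrm
  rw [eLpNorm_congr_ae hgh]

section

variable {Ω : Opens (Fin n → ℂ)}

/-- holomorphic representative -/
noncomputable def rep (g : bergman Ω) : (Fin n → ℂ) → ℂ := g.2.choose

lemma rep_diff (g : bergman Ω) : DifferentiableOn ℂ (rep g) (Ω : Set (Fin n → ℂ)) :=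
  g.2.choose_spec.1

lemma rep_ae (g : bergman Ω) : ∀ᵐ z ∂(leb (Ω : Set (Fin n → ℂ))), (g : LL Ω) z = rep g z :=
  g.2.choose_spec.2

lemma rep_mem (g : bergman Ω) : MemBergman (Ω : Set (Fin n → ℂ)) (rep g) :=
  ⟨rep_diff g, MemLp.ae_eq (rep_ae g) (Lp.memLp (g : LL Ω))⟩

/-- the class of a function -/
noncomputable def cls (g : (Fin n → ℂ) → ℂ) (hg : MemBergman (Ω : Set (Fin n → ℂ)) g) : bergman Ω :=
  ⟨toL hg.2, g, hg.1, toL_ae hg.2⟩

lemma cls_ae (g : (Fin n → ℂ) → ℂ) (hg : MemBergman (Ω : Set (Fin n → ℂ)) g) :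
    ∀ᵐ z ∂(leb (Ω : Set (Fin n → ℂ))), ((cls g hg : bergman Ω) : LL Ω) z = g z :=
  toL_ae hg.2

lemma rep_cls (g : (Fin n → ℂ) → ℂ) (hg : MemBergman (Ω : Set (Fin n → ℂ)) g) :
    ∀ᵐ z ∂(leb (Ω : Set (Fin n → ℂ))), rep (cls g hg) z = g z := by
  filter_upwards [rep_ae (cls g hg), cls_ae g hg] with z h1 h2
  rw [← h1, h2]

lemma norm_eq_nrm (g : bergman Ω) : ‖g‖ = nrm (Ω : Set (Fin n → ℂ)) (rep g) := by
  rw [Submodule.coe_norm, Lp.norm_def]
  unfold nrm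
  congr 1
  exact eLpNorm_congr_ae (rep_ae g)

variable {T : ((Fin n → ℂ) → ℂ) → ((Fin n → ℂ) → ℂ)} (hT : IsBoundedOp (Ω : Set (Fin n → ℂ)) T)

lemma MemBergman.lin {S : Set (Fin n → ℂ)} {g h : (Fin n → ℂ) → ℂ} (hg : MemBergman S g)
    (hh : MemBergman S h) (a b : ℂ) : MemBergman S (fun x => a * g x + b * h x) :=
  ⟨(hg.1.const_mul a).add (hh.1.const_mul b), (hg.2.const_mul a).add (hh.2.const_mul b)⟩

include hT in
lemma op_congr {g h : (Fin n → ℂ) → ℂ} (hg : MemBergman (Ω : Set (Fin n → ℂ)) g)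
    (hh : MemBergman (Ω : Set (Fin n → ℂ)) h)
    (hgh : ∀ᵐ z ∂(leb (Ω : Set (Fin n → ℂ))), g z = h z) :
    ∀ᵐ z ∂(leb (Ω : Set (Fin n → ℂ))), T g z = T h z := by
  obtain ⟨C, hC⟩ := hT.bounded
  have h1 := hC _ (hg.lin hh 1 (-1))
  have h2 : nrm (Ω : Set (Fin n → ℂ)) (fun x => 1 * g x + -1 * h x) = 0 := by
    have h3 : nrm (Ω : Set (Fin n → ℂ)) (fun x => 1 * g x + -1 * h x) =
        nrm (Ω : Set (Fin n → ℂ)) (fun _ => 0) := nrm_congr (by
      filter_upwards [hgh] with z hz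
      rw [hz]; ring)
    rw [h3]
    unfold nrm
    simp
  rw [h2, mul_zero] at h1
  have h3 : eLpNorm (T fun x => 1 * g x + -1 * h x) 2 (leb (Ω : Set (Fin n → ℂ))) = 0 := by
    have h4 := (hT.mem _ (hg.lin hh 1 (-1))).eLpNorm_ne_top
    have h5 : (eLpNorm (T fun x => 1 * g x + -1 * h x) 2 (leb (Ω : Set (Fin n → ℂ)))).toReal = 0 :=
      le_antisymm h1 ENNReal.toReal_nonneg
    rcases (ENNReal.toReal_eq_zero_iff _).1 h5 with h6 | h6
    · exact h6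
    · exact absurd h6 h4
  have h4 := (eLpNorm_eq_zero_iff (hT.mem _ (hg.lin hh 1 (-1))).1 (by norm_num)).1 h3
  filter_upwards [h4, hT.linear g h hg hh 1 (-1)] with z h5 h6
  rw [h6, Pi.zero_apply] at h5
  linear_combination h5

/-- the operator on classes -/
noncomputable def opL : bergman Ω →ₗ[ℂ] LL Ω where
  toFun g := (toL (hT.mem _ (rep_mem g)) : LL Ω)
  map_add' g h := by
    apply Lp.ext
    have h1 : ∀ᵐ z ∂(leb (Ω : Set (Fin n → ℂ))), rep (g + h) z = 1 * rep g z + 1 * rep h z := by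
      filter_upwards [rep_ae (g + h), rep_ae g, rep_ae h, add_ae (g : LL Ω) (h : LL Ω)] with
        z e1 e2 e3 e4
      rw [← e1, Submodule.coe_add, e4, e2, e3]
      ring
    have h2 := op_congr hT (rep_mem (g + h)) ((rep_mem g).lin (rep_mem h) 1 1) h1
    have h3 : ∀ᵐ z ∂(leb (Ω : Set (Fin n → ℂ))), toL (hT.mem _ (rep_mem (g + h))) z =
        (toL (hT.mem _ (rep_mem g)) + toL (hT.mem _ (rep_mem h)) : LL Ω) z := by
      filter_upwards [toL_ae (hT.mem _ (rep_mem (g + h))), h2,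
        hT.linear _ _ (rep_mem g) (rep_mem h) 1 1,
        add_ae (toL (hT.mem _ (rep_mem g)) : LL Ω) (toL (hT.mem _ (rep_mem h)) : LL Ω),
        toL_ae (hT.mem _ (rep_mem g)), toL_ae (hT.mem _ (rep_mem h))] with
        z e1 e2 e3 e4 e5 e6
      rw [e1, e2, e3, e4, e5, e6]
      ring
    exact h3
  map_smul' c g := by
    apply Lp.ext
    have h1 : ∀ᵐ z ∂(leb (Ω : Set (Fin n → ℂ))), rep (c • g) z = c * rep g z + 0 * rep g z := by
      filter_upwards [rep_ae (c • g), rep_ae g, smul_ae c (g : LL Ω)] with z e1 e2 e4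
      rw [← e1, Submodule.coe_smul, e4, e2]
      ring
    have h2 := op_congr hT (rep_mem (c • g)) ((rep_mem g).lin (rep_mem g) c 0) h1
    have h3 : ∀ᵐ z ∂(leb (Ω : Set (Fin n → ℂ))), toL (hT.mem _ (rep_mem (c • g))) z =
        (c • toL (hT.mem _ (rep_mem g)) : LL Ω) z := by
      filter_upwards [toL_ae (hT.mem _ (rep_mem (c • g))), h2,
        hT.linear _ _ (rep_mem g) (rep_mem g) c 0,
        smul_ae c (toL (hT.mem _ (rep_mem g)) : LL Ω),
        toL_ae (hT.mem _ (rep_mem g))] with z e1 e2 e3 e4 e5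
      rw [e1, e2, e3, e4, e5]
      ring
    exact h3

lemma opL_norm (g : bergman Ω) : ‖opL hT g‖ = nrm (Ω : Set (Fin n → ℂ)) (T (rep g)) :=
  norm_toLp_eq (hT.mem _ (rep_mem g))

lemma exists_opC : ∃ S : bergman Ω →L[ℂ] LL Ω, ∀ g, S g = opL hT g := by
  obtain ⟨C, hC⟩ := hT.bounded
  refine ⟨(opL hT).mkContinuous C fun g => ?_, fun g => rfl⟩
  rw [opL_norm, norm_eq_nrm]
  exact hC _ (rep_mem g)

end

lemma inner_norm_one {E : Type*} [NormedAddCommGroup E] [InnerProductSpace ℂ E] {x : E}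
    (h : ⟪x, x⟫_ℂ = 1) : ‖x‖ = 1 := by
  rw [norm_eq_sqrt_re_inner (𝕜 := ℂ) x, h]
  simp

theorem hankelHSL_of {Ω : Opens (Fin n → ℂ)} {φ : (Fin n → ℂ) → ℂ}
    (h : HankelHS (Ω : Set (Fin n → ℂ)) φ) : HankelHSL Ω φ := by
  obtain ⟨hdense, T, hT, hext, ι, e, he, hsum⟩ := h
  refine ⟨?_, ?_⟩
  · rw [Metric.dense_iff]
    intro g ε hε
    obtain ⟨h, hh, hlt⟩ := hdense (rep g) (rep_mem g) ε hε
    refine ⟨cls h hh.1, ?_, ?_⟩
    · rw [mem_ball, dist_comm, dist_eq_norm, norm_eq_nrm]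
      refine lt_of_le_of_lt (le_of_eq (nrm_congr ?_)) hlt
      filter_upwards [sub_ae (g : LL Ω) ((cls h hh.1 : bergman Ω) : LL Ω), rep_ae g,
        cls_ae h hh.1, rep_ae (g - cls h hh.1)] with z e1 e2 e3 e4
      rw [← e4, Submodule.coe_sub, e1, e2, e3]
    · have h1 : ∀ᵐ z ∂(mu Ω), φ z * h z = φ z * ((cls h hh.1 : bergman Ω) : LL Ω) z := by
        filter_upwards [cls_ae h hh.1] with z e3
        rw [e3]
      exact MemLp.ae_eq h1 hh.2
  · obtain ⟨S, hS⟩ := exists_opC hT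
    refine ⟨S, ?_, ?_⟩
    · intro g hg
      rw [hS]
      set u : LL Ω := MemLp.toLp _ hg with hu
      have hu' : ∀ᵐ z ∂(leb (Ω : Set (Fin n → ℂ))), u z = φ z * (g : LL Ω) z :=
        MemLp.coeFn_toLp hg
      have hPu : bergmanProj Ω u ∈ bergman Ω := Submodule.starProjection_apply_mem _ _
      set p : bergman Ω := ⟨bergmanProj Ω u, hPu⟩ with hp
      have hp' : ∀ᵐ z ∂(leb (Ω : Set (Fin n → ℂ))), (bergmanProj Ω u) z = rep p z := rep_ae p
      have hφ : ∀ᵐ z ∂(leb (Ω : Set (Fin n → ℂ))), φ z * (g : LL Ω) z = φ z * rep g z := by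
        filter_upwards [rep_ae g] with z e1
        rw [e1]
      have hdom : HankelDom (Ω : Set (Fin n → ℂ)) φ (rep g) :=
        ⟨rep_mem g, MemLp.ae_eq hφ hg⟩
      have hsub : ∀ᵐ z ∂(leb (Ω : Set (Fin n → ℂ))), (u - bergmanProj Ω u) z =
          φ z * rep g z - rep p z := by
        filter_upwards [sub_ae u (bergmanProj Ω u), hu', hp', hφ] with z e1 e2 e3 e4
        rw [e1, e2, e3, e4]
      have hproj : IsProj (Ω : Set (Fin n → ℂ)) (fun z => φ z * rep g z) (rep p) := by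
        refine ⟨rep_mem p, fun h hh => ?_⟩
        have h1 : ⟪((cls h hh : bergman Ω) : LL Ω), u - bergmanProj Ω u⟫_ℂ = 0 := by
          have h2 := Submodule.sub_starProjection_mem_orthogonal (K := bergman Ω) u
          exact (Submodule.mem_orthogonal _ _).1 h2 _ (cls h hh).2
        exact (inner_eq_ip _ _ hsub (cls_ae h hh)).symm.trans h1
      have h1 := hext (rep g) (fun z => φ z * rep g z - rep p z)
        ⟨hdom, rep p, hproj, ae_of_all _ fun z => rfl⟩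
      apply Lp.ext
      have h2 : ∀ᵐ z ∂(leb (Ω : Set (Fin n → ℂ))), (opL hT g) z = (u - bergmanProj Ω u) z := by
        filter_upwards [toL_ae (hT.mem _ (rep_mem g)), h1, hsub] with z e1 e2 e3
        rw [e3, ← e2]
        exact e1
      exact h2
    · have hin : ∀ k l, ⟪cls (e k) (he.mem k), cls (e l) (he.mem l)⟫_ℂ =
          ip (Ω : Set (Fin n → ℂ)) (e l) (e k) := fun k l =>
        inner_toLp_eq (he.mem l).2 (he.mem k).2
      have horth : Orthonormal ℂ fun k => cls (e k) (he.mem k) := by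
        constructor
        · intro k
          exact inner_norm_one ((hin k k).trans (he.norm_one k))
        · intro k l hkl
          exact (hin k l).trans (he.orthogonal l k (Ne.symm hkl))
      have hbot : (Submodule.span ℂ (range fun k => cls (e k) (he.mem k)))ᗮ = ⊥ := by
        rw [Submodule.eq_bot_iff]
        intro g hg
        have h1 : ∀ k, ip (Ω : Set (Fin n → ℂ)) (rep g) (e k) = 0 := by
          intro k
          have h2 := (Submodule.mem_orthogonal _ _).1 hg _ (Submodule.subset_span ⟨k, rfl⟩)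
          have h3 : ⟪((cls (e k) (he.mem k) : bergman Ω) : LL Ω), (g : LL Ω)⟫_ℂ = 0 := h2
          exact (inner_eq_ip _ _ (rep_ae g) (cls_ae (e k) (he.mem k))).symm.trans h3
        have h2 := he.complete (rep g) (rep_mem g) h1
        apply Subtype.ext
        apply Lp.ext
        have h3 : ∀ᵐ z ∂(leb (Ω : Set (Fin n → ℂ))), (g : LL Ω) z = ((0 : LL Ω)) z := by
          filter_upwards [rep_ae g, h2, (Lp.coeFn_zero ℂ 2 (mu Ω) :
            ∀ᵐ z ∂(leb (Ω : Set (Fin n → ℂ))), ((0 : LL Ω)) z = (0 : (Fin n → ℂ) → ℂ) z)] with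
            z e1 e2 e3
          rw [e1, e2, e3, Pi.zero_apply]
        exact h3
      refine ⟨ι, HilbertBasis.mkOfOrthogonalEqBot horth hbot, ?_⟩
      refine hsum.congr fun k => ?_
      rw [HilbertBasis.coe_mkOfOrthogonalEqBot, hS, opL_norm]
      congr 1
      exact nrm_congr (op_congr hT (he.mem k) (rep_mem _) (by
        filter_upwards [rep_cls (e k) (he.mem k)] with z hz
        exact hz.symm))

/-- **Main theorem.** -/
theorem main {Ω : Set (Fin n → ℂ)} (hn : 2 ≤ n) (hΩ : IsReinhardtDomain Ω)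
    (hb : Bornology.IsBounded Ω) {f : (Fin n → ℂ) → ℂ}
    (hf : DifferentiableOn ℂ f Ω) (hHS : HankelHS Ω fun z => conj (f z)) :
    (∃ C : ℂ, ∀ z ∈ Ω, f z = C) ∧
      ∀ g v, IsHankel Ω (fun z => conj (f z)) g v → ∀ᵐ z ∂(leb Ω), v z = 0 := by
  obtain ⟨C, hC⟩ := main_inv (Ω := ⟨Ω, hΩ.isOpen⟩) hn hΩ.connected.isPreconnected
    hΩ.connected.nonempty hb (invSet_of_rotate hΩ.rotate) hf (hankelHSL_of hHS)
  refine ⟨⟨C, hC⟩, ?_⟩
  rintro g v ⟨⟨hg, hφ⟩, p, ⟨hp, horth⟩, hv⟩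
  have h1 : MemBergman Ω (fun z => conj C * g z + -1 * p z) := hg.lin hp _ _
  have h2 := horth _ h1
  have h3 : ∀ᵐ z ∂(leb Ω), conj (f z) * g z - p z = conj C * g z + -1 * p z := by
    unfold leb
    filter_upwards [ae_restrict_mem hΩ.isOpen.measurableSet] with z hz
    rw [hC z hz]
    ring
  have h4 : ip Ω (fun z => conj C * g z + -1 * p z) (fun z => conj C * g z + -1 * p z) = 0 := by
    rw [← h2]
    refine integral_congr_ae ?_
    filter_upwards [h3] with z hz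
    rw [hz]
  have h5 := inner_toLp_eq (Ω := ⟨Ω, hΩ.isOpen⟩) h1.2 h1.2
  have h6 : (toL h1.2 : LL ⟨Ω, hΩ.isOpen⟩) = 0 :=
    (inner_self_eq_zero (𝕜 := ℂ)).1 (h5.trans h4)
  have h7 : ∀ᵐ z ∂(leb Ω), (toL h1.2 : LL ⟨Ω, hΩ.isOpen⟩) z = 0 := by
    rw [h6]
    exact Lp.coeFn_zero ℂ 2 (mu ⟨Ω, hΩ.isOpen⟩)
  filter_upwards [hv, h3, h7, toL_ae (Ω := ⟨Ω, hΩ.isOpen⟩) h1.2] with z e1 e2 e3 e4
  rw [e1, e2, ← e4, e3]

end Pool.Agent.K3h62.HS
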