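import Pool.Agent.K3h62.HS.Hol

/-!
# Exhaustion of a bounded Reinhardt domain by invariant compact sets
-/

set_option autoImplicit false

open MeasureTheory Topology Filter Set Metric
open scoped ENNReal NNReal ComplexConjugate

namespace Pool.Agent.K3h62.HS

variable {n : ℕ}

/-- the compact sets -/
def KK (Ω : Set (Fin n → ℂ)) (m : ℕ) : Set (Fin n → ℂ) :=
  {z | (∀ i, 1 / ((m : ℝ) + 1) ≤ ‖z i‖) ∧ 1 / ((m : ℝ) + 1) ≤ infDist z Ωᶜ}

lemma KK_closed (Ω : Set (Fin n → ℂ)) (m : ℕ) : IsClosed (KK Ω m) := by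
  have : KK Ω m = (⋂ i, {z : Fin n → ℂ | 1 / ((m : ℝ) + 1) ≤ ‖z i‖}) ∩
      {z | 1 / ((m : ℝ) + 1) ≤ infDist z Ωᶜ} := by
    ext z; simp [KK]
  rw [this]
  refine IsClosed.inter (isClosed_iInter fun i => ?_) ?_
  · exact isClosed_le continuous_const (continuous_apply i).norm
  · exact isClosed_le continuous_const (continuous_infDist_pt _)

lemma KK_sub (Ω : Set (Fin n → ℂ)) (m : ℕ) : KK Ω m ⊆ star Ω := by
  intro z hz
  have h0 : 0 < 1 / ((m : ℝ) + 1) := by positivity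
  refine ⟨?_, fun j hj => ?_⟩
  · by_contra h
    have h1 : infDist z Ωᶜ = 0 := infDist_zero_of_mem h
    have h2 := hz.2
    rw [h1] at h2
    linarith
  · have := hz.1 j
    rw [hj, norm_zero] at this
    linarith

lemma KK_compact {Ω : Set (Fin n → ℂ)} (hb : Bornology.IsBounded Ω) (m : ℕ) : IsCompact (KK Ω m) :=
  isCompact_of_isClosed_isBounded (KK_closed Ω m) (hb.subset fun _ hz => (KK_sub Ω m hz).1)

lemma KK_inv {Ω : Set (Fin n → ℂ)} (hinv : InvSet Ω) (m : ℕ) : InvSet (KK Ω m) := by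
  intro t z hz
  refine ⟨fun i => by rw [norm_rot_apply]; exact hz.1 i, ?_⟩
  have himg : rot t '' Ωᶜ = Ωᶜ := by
    ext w
    constructor
    · rintro ⟨v, hv, rfl⟩
      exact hinv.compl t v hv
    · intro hw
      exact ⟨rot (-t) w, hinv.compl (-t) w hw, rot_rot_neg t w⟩
  have := infDist_image (isometry_rot t) (x := z) (t := Ωᶜ)
  rw [himg] at this
  rw [this]
  exact hz.2

lemma KK_mono (Ω : Set (Fin n → ℂ)) : Monotone (KK Ω) := by
  intro m k hmk z hz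
  have h1 : 1 / ((k : ℝ) + 1) ≤ 1 / ((m : ℝ) + 1) := by
    have : (m : ℝ) ≤ k := by exact_mod_cast hmk
    gcongr
  exact ⟨fun i => h1.trans (hz.1 i), h1.trans hz.2⟩

lemma KK_union {Ω : Set (Fin n → ℂ)} (hopen : IsOpen Ω) (hne : (Ωᶜ).Nonempty) :
    ⋃ m, KK Ω m = star Ω := by
  apply Subset.antisymm (iUnion_subset fun m => KK_sub Ω m)
  intro z hz
  have h1 : 0 < infDist z Ωᶜ := (hopen.isClosed_compl.notMem_iff_infDist_pos hne).1 (fun h => h hz.1)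
  have h2 : ∃ ε : ℝ, 0 < ε ∧ (∀ i, ε ≤ ‖z i‖) ∧ ε ≤ infDist z Ωᶜ := by
    have h3 : ∃ ε : ℝ, 0 < ε ∧ ∀ i, ε ≤ ‖z i‖ := by
      rcases isEmpty_or_nonempty (Fin n) with h | h
      · exact ⟨1, one_pos, fun i => h.elim i⟩
      · obtain ⟨i₀, hi₀⟩ := Finite.exists_min fun i => ‖z i‖
        exact ⟨‖z i₀‖, norm_pos_iff.2 (hz.2 i₀), hi₀⟩
    obtain ⟨ε, hε, hε'⟩ := h3
    exact ⟨min ε (infDist z Ωᶜ), lt_min hε h1, fun i => (min_le_left _ _).trans (hε' i),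
      min_le_right _ _⟩
  obtain ⟨ε, hε, h3, h4⟩ := h2
  obtain ⟨m, hm⟩ := exists_nat_one_div_lt hε
  exact mem_iUnion.2 ⟨m, fun i => hm.le.trans (h3 i), hm.le.trans h4⟩

lemma compl_nonempty {Ω : Set (Fin n → ℂ)} (hn : 1 ≤ n) (hb : Bornology.IsBounded Ω) :
    (Ωᶜ).Nonempty := by
  rw [nonempty_compl]
  rintro rfl
  have : Nonempty (Fin n) := ⟨⟨0, hn⟩⟩
  exact NormedSpace.unbounded_univ ℂ (Fin n → ℂ) hb

/-- monotone convergence -/
lemma tendsto_cc {Ω : Set (Fin n → ℂ)} (hopen : IsOpen Ω) (hne : (Ωᶜ).Nonempty) (δ : Fin n → ℤ) :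
    Tendsto (fun m => ∫⁻ z in KK Ω m, ‖mono δ z‖ₑ ^ 2) atTop (𝓝 (cc Ω δ)) := by
  have h1 : cc Ω δ = ∫⁻ z in ⋃ m, KK Ω m, ‖mono δ z‖ₑ ^ 2 := by
    rw [KK_union hopen hne]
    unfold cc
    apply setLIntegral_congr
    refine ae_eq_set.2 ⟨?_, ?_⟩
    · refine measure_mono_null ?_ null_coord
      intro z hz
      by_contra h
      exact hz.2 ⟨hz.1, fun j hj => h ⟨j, hj⟩⟩
    · refine measure_mono_null ?_ (measure_empty (μ := (volume : Measure (Fin n → ℂ))))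
      intro z hz
      exact hz.2 hz.1.1
  rw [h1]
  have hd : Directed (· ⊆ ·) (KK Ω) := (KK_mono Ω).directed_le
  rw [setLIntegral_iUnion_of_directed _ hd]
  exact tendsto_atTop_iSup fun m k hmk => lintegral_mono_set (KK_mono Ω hmk)

end Pool.Agent.K3h62.HS
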