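import Mathlib

/-!
# Hilbert–Schmidt operators: the sum over an orthonormal family
-/

set_option autoImplicit false

open Topology Filter Set
open scoped ENNReal NNReal InnerProductSpace

namespace Pool.Agent.K3h62.HS

section

variable {E F : Type*} [NormedAddCommGroup E] [InnerProductSpace ℂ E] [CompleteSpace E]
  [NormedAddCommGroup F] [InnerProductSpace ℂ F] [CompleteSpace F]

lemma enorm_sq_eq {x : ℝ} : (‖x‖ₑ ^ 2 : ℝ≥0∞) = ENNReal.ofReal (x ^ 2) := by
  rw [← ofReal_norm, ← ENNReal.ofReal_pow (norm_nonneg _), Real.norm_eq_abs, sq_abs]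

lemma hilbert_hasSum {ι : Type*} (b : HilbertBasis ι ℂ E) (x : E) :
    HasSum (fun i => ‖⟪b i, x⟫_ℂ‖ ^ 2) (‖x‖ ^ 2) := by
  have h1 := b.hasSum_inner_mul_inner x x
  have h2 := Complex.hasSum_re h1
  have h3 : (⟪x, x⟫_ℂ).re = ‖x‖ ^ 2 := by
    rw [inner_self_eq_norm_sq_to_K]
    norm_cast
  rw [h3] at h2
  convert h2 using 2 with i
  rw [← inner_conj_symm x (b i), ← Complex.normSq_eq_conj_mul_self, Complex.ofReal_re,
    Complex.normSq_eq_norm_sq]

lemma hilbert_tsum {ι : Type*} (b : HilbertBasis ι ℂ E) (x : E) :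
    ∑' i, ENNReal.ofReal (‖⟪b i, x⟫_ℂ‖ ^ 2) = ENNReal.ofReal (‖x‖ ^ 2) := by
  rw [← (hilbert_hasSum b x).tsum_eq, ENNReal.ofReal_tsum_of_nonneg (fun _ => by positivity)
    (hilbert_hasSum b x).summable]

theorem hs_bound (T : E →L[ℂ] F) {ι : Type*} (e : HilbertBasis ι ℂ E)
    (hs : Summable fun k => ‖T (e k)‖ ^ 2) {κ : Type*} {v : κ → E} (hv : Orthonormal ℂ v)
    (s : Finset κ) : ∑ i ∈ s, ‖T (v i)‖ ^ 2 ≤ ∑' k, ‖T (e k)‖ ^ 2 := by
  obtain ⟨w, b, -⟩ := exists_hilbertBasis ℂ F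
  have hadj : ∀ (q : w) (x : E), ⟪b q, T x⟫_ℂ = ⟪(ContinuousLinearMap.adjoint T) (b q), x⟫_ℂ :=
    fun q x => (ContinuousLinearMap.adjoint_inner_left T x (b q)).symm
  have h1 : ∑ i ∈ s, ENNReal.ofReal (‖T (v i)‖ ^ 2) ≤
      ∑' q, ENNReal.ofReal (‖(ContinuousLinearMap.adjoint T) (b q)‖ ^ 2) := by
    simp_rw [← hilbert_tsum b]
    rw [← Summable.tsum_finsetSum (fun i _ => ENNReal.summable)]
    refine ENNReal.tsum_le_tsum fun q => ?_
    rw [← ENNReal.ofReal_sum_of_nonneg (fun _ _ => by positivity)]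
    apply ENNReal.ofReal_le_ofReal
    have h2 := hv.sum_inner_products_le (x := (ContinuousLinearMap.adjoint T) (b q)) (s := s)
    refine le_trans (le_of_eq ?_) h2
    refine Finset.sum_congr rfl fun i _ => ?_
    rw [hadj, ← inner_conj_symm, RCLike.norm_conj]
  have h2 : ∑' q, ENNReal.ofReal (‖(ContinuousLinearMap.adjoint T) (b q)‖ ^ 2) =
      ∑' k, ENNReal.ofReal (‖T (e k)‖ ^ 2) := by
    simp_rw [← hilbert_tsum b, ← hilbert_tsum e]
    rw [ENNReal.tsum_comm]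
    refine tsum_congr fun k => tsum_congr fun q => ?_
    rw [hadj, ← inner_conj_symm, RCLike.norm_conj]
  rw [h2, ← ENNReal.ofReal_tsum_of_nonneg (fun _ => by positivity) hs,
    ← ENNReal.ofReal_sum_of_nonneg (fun _ _ => by positivity)] at h1
  exact (ENNReal.ofReal_le_ofReal_iff (tsum_nonneg fun _ => by positivity)).1 h1

end

end Pool.Agent.K3h62.HS
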