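import Pool.Agent.K3h62.HS.Mono

/-!
# Square integrable Laurent monomials are holomorphic
-/

set_option autoImplicit false

open MeasureTheory Topology Filter Set Metric
open scoped ENNReal NNReal ComplexConjugate

namespace Pool.Agent.K3h62.HS

variable {n : ℕ}

/-- the square of the `L²` norm of the monomial `z ^ α` -/
noncomputable def cc (Ω : Set (Fin n → ℂ)) (α : Fin n → ℤ) : ℝ≥0∞ := ∫⁻ z in Ω, ‖mono α z‖ₑ ^ 2

lemma exp_nonneg {Ω : Set (Fin n → ℂ)} (hopen : IsOpen Ω) {α : Fin n → ℤ} (hfin : cc Ω α ≠ ∞)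
    {z₀ : Fin n → ℂ} (hz : z₀ ∈ Ω) {j : Fin n} (hj : z₀ j = 0) : 0 ≤ α j := by
  classical
  by_contra hneg
  have hα : α j ≤ -1 := by omega
  -- a point of the hyperplane with the other coordinates nonzero
  obtain ⟨r, hr, hball⟩ := Metric.isOpen_iff.1 hopen z₀ hz
  obtain ⟨v, hv, hv0⟩ := exists_star_point isOpen_ball ⟨z₀, mem_ball_self hr⟩
  set w : Fin n → ℂ := Function.update v j 0 with hw
  have hwΩ : w ∈ Ω := by
    apply hball
    rw [mem_ball, dist_pi_lt_iff hr]
    intro i
    by_cases h : i = j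
    · subst h; simp [hw, hj, hr]
    · simp only [hw, Function.update_of_ne h]
      exact lt_of_le_of_lt (dist_le_pi_dist v z₀ i) hv
  have hw0 : ∀ i, i ≠ j → w i ≠ 0 := fun i hi => by
    simp only [hw, Function.update_of_ne hi]; exact hv0 i
  have hwj : w j = 0 := by simp [hw]
  -- the product of the other factors
  set g : (Fin n → ℂ) → ℂ := fun z => ∏ i ∈ Finset.univ.erase j, z i ^ α i with hg
  have hgc : ContinuousAt g w := by
    refine tendsto_finsetProd _ fun i hi => ?_
    have hij : i ≠ j := (Finset.mem_erase.1 hi).1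
    exact ((continuous_apply i).continuousAt (x := w)).zpow₀ (α i) (Or.inl (hw0 i hij))
  have hg0 : g w ≠ 0 := Finset.prod_ne_zero_iff.2 fun i hi =>
    zpow_ne_zero _ (hw0 i (Finset.mem_erase.1 hi).1)
  set c : ℝ := ‖g w‖ / 2 with hc
  have hcpos : 0 < c := by have := norm_pos_iff.2 hg0; positivity
  have hev : ∀ᶠ z in 𝓝 w, c < ‖g z‖ := by
    have : ‖g w‖ ∈ Ioi c := by
      rw [mem_Ioi, hc]; have := norm_pos_iff.2 hg0; linarith
    exact hgc.norm.eventually (isOpen_Ioi.mem_nhds this)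
  obtain ⟨δ, hδ, hδb⟩ := Metric.eventually_nhds_iff_ball.1 (hev.and (hopen.mem_nhds hwΩ))
  set d : ℝ := min δ 1 with hd
  have hdpos : 0 < d := by positivity
  -- boxes
  set B : ℕ → Set (Fin n → ℂ) := fun m => Set.pi univ fun i =>
    ball (w i) (if i = j then d / (m + 1) else d) with hB
  have hBsub : ∀ m, B m ⊆ ball w δ := by
    intro m z hz
    rw [mem_ball, dist_pi_lt_iff hδ]
    intro i
    have h1 := mem_univ_pi.1 hz i
    rw [mem_ball] at h1
    have h2 : d ≤ δ := min_le_left _ _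
    have h3 : d / (m + 1) ≤ d := div_le_self hdpos.le (by
      have : (0 : ℝ) ≤ m := Nat.cast_nonneg m
      linarith)
    split_ifs at h1 <;> linarith
  set V : ℝ≥0∞ := ∏ i ∈ Finset.univ.erase j, volume (ball (w i) d) with hV
  have hV0 : V ≠ 0 := Finset.prod_ne_zero_iff.2 fun i _ => (measure_ball_pos _ _ hdpos).ne'
  have hVt : V ≠ ∞ := ENNReal.prod_ne_top fun i _ => measure_ball_lt_top.ne
  have hvol : ∀ m, volume (B m) = ENNReal.ofReal (d / (m + 1)) ^ 2 * NNReal.pi * V := by
    intro m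
    rw [hB, volume_pi_pi, ← Finset.mul_prod_erase Finset.univ _ (Finset.mem_univ j)]
    congr 1
    · rw [if_pos rfl, Complex.volume_ball]
    · rw [hV]
      refine Finset.prod_congr rfl fun i hi => ?_
      rw [if_neg (Finset.mem_erase.1 hi).1]
  have hlow : ∀ m, ENNReal.ofReal c ^ 2 * (NNReal.pi * V) ≤
      ∫⁻ z in B m, ‖mono α z‖ₑ ^ 2 ∂(volume.restrict Ω) := by
    intro m
    have hm0 : 0 < d / ((m : ℝ) + 1) := by positivity
    have hBm : MeasurableSet (B m) := MeasurableSet.univ_pi fun i => measurableSet_ball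
    have hBΩ : B m ⊆ Ω := fun z hz => (hδb z (hBsub m hz)).2
    rw [Measure.restrict_restrict hBm, inter_eq_self_of_subset_left hBΩ]
    have h1 : ∀ᵐ z ∂(volume.restrict (B m)),
        ENNReal.ofReal (c / (d / (m + 1))) ^ 2 ≤ ‖mono α z‖ₑ ^ 2 := by
      have h0 : ∀ᵐ z : Fin n → ℂ ∂(volume.restrict (B m)), ∀ j, z j ≠ 0 :=
        ae_restrict_of_ae ae_coord
      filter_upwards [h0, ae_restrict_mem hBm] with z hz0 hzB
      gcongr
      rw [← ofReal_norm]
      apply ENNReal.ofReal_le_ofReal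
      have h2 : mono α z = z j ^ α j * g z := by
        unfold mono
        rw [← Finset.mul_prod_erase Finset.univ _ (Finset.mem_univ j)]
      have h3 : c < ‖g z‖ := (hδb z (hBsub m hzB)).1
      have h4 : ‖z j‖ < d / (m + 1) := by
        have := mem_univ_pi.1 hzB j
        rw [if_pos rfl, hwj, mem_ball_zero_iff] at this
        exact this
      have h5 : 0 < ‖z j‖ := norm_pos_iff.2 (hz0 j)
      have h6 : d / (m + 1) ≤ 1 := by
        have h7 : d ≤ 1 := min_le_right _ _
        have h8 : d / (m + 1) ≤ d := div_le_self hdpos.le (by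
          have : (0 : ℝ) ≤ m := Nat.cast_nonneg m
          linarith)
        linarith
      have h7 : ‖z j‖⁻¹ ≤ ‖z j‖ ^ α j := by
        rw [← zpow_neg_one]
        exact zpow_le_zpow_right_of_le_one₀ h5 (h4.le.trans h6) hα
      rw [h2, norm_mul, norm_zpow]
      calc c / (d / (m + 1)) = (d / (m + 1))⁻¹ * c := by rw [div_eq_inv_mul]
        _ ≤ ‖z j‖⁻¹ * ‖g z‖ := by
            gcongr
        _ ≤ ‖z j‖ ^ α j * ‖g z‖ := by gcongr
    calc ENNReal.ofReal c ^ 2 * (NNReal.pi * V)
        = ENNReal.ofReal (c / (d / (m + 1))) ^ 2 * volume (B m) := by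
          rw [hvol m]
          have h9 : ENNReal.ofReal c = ENNReal.ofReal (c / (d / (m + 1))) * ENNReal.ofReal (d / (m + 1)) := by
            rw [← ENNReal.ofReal_mul (by positivity)]
            congr 1
            field_simp
          rw [h9]
          ring
      _ = ∫⁻ _ in B m, ENNReal.ofReal (c / (d / (m + 1))) ^ 2 := by
          rw [setLIntegral_const]
      _ ≤ ∫⁻ z in B m, ‖mono α z‖ₑ ^ 2 := lintegral_mono_ae h1
  have hto : Tendsto (fun m => ∫⁻ z in B m, ‖mono α z‖ₑ ^ 2 ∂(volume.restrict Ω)) atTop (𝓝 0) := by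
    refine tendsto_setLIntegral_zero hfin ?_
    have h1 : Tendsto (fun m : ℕ => ENNReal.ofReal (d / (m + 1)) ^ 2 * NNReal.pi * V) atTop (𝓝 0) := by
      have h2 : Tendsto (fun m : ℕ => d / ((m : ℝ) + 1)) atTop (𝓝 0) :=
        tendsto_const_div_atTop_nhds_zero_nat d |>.comp (tendsto_add_atTop_nat 1) |>.congr fun m => by
          simp
      have h3 := ENNReal.tendsto_ofReal h2
      rw [ENNReal.ofReal_zero] at h3
      have h4 := (ENNReal.continuous_pow 2).continuousAt.tendsto.comp h3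
      have h5 : Tendsto (fun m : ℕ => ENNReal.ofReal (d / (m + 1)) ^ 2 * (NNReal.pi * V)) atTop
          (𝓝 (0 ^ 2 * (NNReal.pi * V))) := by
        refine ENNReal.Tendsto.mul_const h4 (Or.inr ?_)
        exact ENNReal.mul_ne_top ENNReal.coe_ne_top hVt
      simpa [mul_assoc] using h5
    refine tendsto_of_tendsto_of_tendsto_of_le_of_le tendsto_const_nhds h1 (fun _ => zero_le) ?_
    intro m
    have h6 := Measure.restrict_apply_le (μ := (volume : Measure (Fin n → ℂ))) Ω (B m)
    rw [hvol m] at h6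
    exact h6
  have h10 : ENNReal.ofReal c ^ 2 * (NNReal.pi * V) ≤ 0 :=
    ge_of_tendsto' hto hlow
  have h11 : ENNReal.ofReal c ^ 2 * (NNReal.pi * V) ≠ 0 := by
    refine mul_ne_zero (pow_ne_zero _ ?_) (mul_ne_zero ?_ hV0)
    · simpa using hcpos
    · simpa using NNReal.pi_ne_zero
  exact h11 (le_antisymm h10 zero_le)

lemma mono_diffOn {Ω : Set (Fin n → ℂ)} (hopen : IsOpen Ω) {α : Fin n → ℤ} (hfin : cc Ω α ≠ ∞) :
    DifferentiableOn ℂ (mono α) Ω := fun z hz =>
  (mono_differentiableAt α fun j => by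
    by_cases h : z j = 0
    · exact Or.inr (exp_nonneg hopen hfin hz h)
    · exact Or.inl h).differentiableWithinAt

end Pool.Agent.K3h62.HS
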