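import Mathlib

/-!
# Telescoping along a line
-/

set_option autoImplicit false

open Topology Filter Set
open scoped ENNReal NNReal

namespace Pool.Agent.K3h62.HS

/-- exponential growth beats a smaller exponential -/
lemma growth {x y : ℝ≥0} (hx : 0 < x) (hxy : x < y) {v b : ℝ≥0∞} (hv : v ≠ 0) (hb : b ≠ ∞)
    (h : ∀ k : ℕ, (y : ℝ≥0∞) ^ k * v ≤ (x : ℝ≥0∞) ^ k * b) : False := by
  have hvt : v ≠ ∞ := by
    have := h 0
    simp only [pow_zero, one_mul] at this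
    exact ne_top_of_le_ne_top hb this
  have h1 : ∀ k : ℕ, (y / x : ℝ≥0) ^ k * v.toNNReal ≤ b.toNNReal := by
    intro k
    have h2 := h k
    have h3 : (y : ℝ≥0∞) ^ k * v = ((y ^ k * v.toNNReal : ℝ≥0) : ℝ≥0∞) := by
      push_cast
      rw [ENNReal.coe_toNNReal hvt]
    have h4 : (x : ℝ≥0∞) ^ k * b = ((x ^ k * b.toNNReal : ℝ≥0) : ℝ≥0∞) := by
      push_cast
      rw [ENNReal.coe_toNNReal hb]
    rw [h3, h4, ENNReal.coe_le_coe] at h2
    rw [div_pow, div_mul_eq_mul_div, div_le_iff₀ (by positivity)]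
    calc y ^ k * v.toNNReal ≤ x ^ k * b.toNNReal := h2
      _ = b.toNNReal * x ^ k := mul_comm _ _
  have hv' : 0 < v.toNNReal := ENNReal.toNNReal_pos hv hvt
  have hgt : 1 < y / x := (one_lt_div hx).2 hxy
  have h5 : Tendsto (fun k : ℕ => (y / x : ℝ≥0) ^ k) atTop atTop :=
    tendsto_pow_atTop_atTop_of_one_lt hgt
  obtain ⟨k, hk⟩ := (h5.eventually_gt_atTop (b.toNNReal / v.toNNReal)).exists
  have h6 := h1 k
  rw [div_lt_iff₀ hv'] at hk
  exact absurd h6 (not_le.2 hk)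

/-- The sum of the increments along a line. -/
theorem line_sum {a t : ℤ → ℝ≥0∞} (h0 : a 0 ≠ ∞) (hpos : ∀ k, a k ≠ 0)
    (ht : ∀ k, a k ≠ ∞ → t k ≠ ∞)
    (hrec : ∀ k, a k ≠ ∞ → a (k + 1) ≤ a k ^ 2 / a (k - 1) + t k)
    {m₂ m₁ M₁ M₂ : ℝ≥0} (hm : 0 < m₂) (hm12 : m₂ < m₁) (hmM : m₁ < M₁) (hM12 : M₁ < M₂)
    {v v' : ℝ≥0∞} (hv : v ≠ 0) (hv' : v' ≠ 0)
    (hup : ∀ k : ℕ, (M₂ : ℝ≥0∞) ^ k * v ≤ a k)
    (hdown : ∀ k : ℕ, v' ≤ (m₂ : ℝ≥0∞) ^ k * a (-k)) :
    ∃ s : Finset ℤ, (∀ k ∈ s, a k ≠ ∞) ∧ (M₁ : ℝ≥0∞) ≤ m₁ + ∑ k ∈ s, t k / a k := by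
  classical
  set ρ : ℤ → ℝ≥0∞ := fun k => a (k + 1) / a k with hρ
  have hstep : ∀ k, a k ≠ ∞ → ρ k ≤ ρ (k - 1) + t k / a k := by
    intro k hk
    have h1 : a (k + 1) / a k ≤ (a k ^ 2 / a (k - 1) + t k) / a k :=
      ENNReal.div_le_div_right (hrec k hk) _
    refine h1.trans (le_of_eq ?_)
    rw [ENNReal.add_div]
    congr 1
    simp only [hρ, sub_add_cancel]
    rw [div_eq_mul_inv, div_eq_mul_inv, div_eq_mul_inv, sq]
    calc a k * a k * (a (k - 1))⁻¹ * (a k)⁻¹ = (a k * (a k)⁻¹) * (a k * (a (k - 1))⁻¹) := by ring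
      _ = a k * (a (k - 1))⁻¹ := by rw [ENNReal.mul_inv_cancel (hpos k) hk, one_mul]
  have hfin_up : ∀ k, a k ≠ ∞ → a (k + 1) ≠ ∞ := by
    intro k hk
    refine ne_top_of_le_ne_top ?_ (hrec k hk)
    exact ENNReal.add_ne_top.2 ⟨ENNReal.div_ne_top (ENNReal.pow_ne_top hk) (hpos _), ht k hk⟩
  have hnat : ∀ k : ℕ, a k ≠ ∞ := by
    intro k
    induction k with
    | zero => simpa using h0
    | succ k ih => push_cast; exact hfin_up _ ih
  -- the upper end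
  obtain ⟨k₁, hk₁⟩ : ∃ k : ℕ, (M₁ : ℝ≥0∞) ≤ ρ k := by
    by_contra hcon
    push Not at hcon
    have h2 : ∀ k : ℕ, a k ≤ (M₁ : ℝ≥0∞) ^ k * a 0 := by
      intro k
      induction k with
      | zero => simp
      | succ k ih =>
        have h3 := (hcon k).le
        simp only [hρ] at h3
        rw [ENNReal.div_le_iff (hpos _) (hnat _)] at h3
        push_cast
        calc a ((k : ℤ) + 1) ≤ M₁ * a k := h3
          _ ≤ M₁ * ((M₁ : ℝ≥0∞) ^ k * a 0) := by gcongr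
          _ = (M₁ : ℝ≥0∞) ^ (k + 1) * a 0 := by ring
    exact growth ((hm.trans hm12).trans hmM) hM12 hv h0 fun k => (hup k).trans (h2 k)
  -- the lower end
  obtain ⟨j, hj, hjρ⟩ : ∃ j : ℕ, (∀ i : ℕ, i ≤ j → a (-i) ≠ ∞) ∧ ρ (-j - 1) ≤ m₁ := by
    by_contra hcon
    push Not at hcon
    have h4 : ∀ j : ℕ, (∀ i : ℕ, i ≤ j → a (-i) ≠ ∞) ∧ (m₁ : ℝ≥0∞) ^ j * a (-j) ≤ a 0 := by
      intro j
      induction j with
      | zero =>
        refine ⟨fun i hi => ?_, by simp⟩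
        have : i = 0 := by omega
        subst this; simpa using h0
      | succ j ih =>
        have h5 := hcon j ih.1
        have h6 : a (-j - 1) ≠ ∞ := by
          intro h7
          simp only [hρ, h7, ENNReal.div_top] at h5
          exact absurd h5 (not_lt.2 zero_le)
        have h7 : (m₁ : ℝ≥0∞) * a (-j - 1) ≤ a (-j) := by
          have h8 := h5.le
          simp only [hρ, sub_add_cancel] at h8
          rwa [ENNReal.le_div_iff_mul_le (Or.inl (hpos _)) (Or.inl h6)] at h8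
        have h9 : (-((j + 1 : ℕ) : ℤ)) = -j - 1 := by push_cast; ring
        refine ⟨fun i hi => ?_, ?_⟩
        · rcases Nat.lt_or_ge j i with h10 | h10
          · have : i = j + 1 := by omega
            rw [this, h9]; exact h6
          · exact ih.1 i h10
        · rw [h9]
          calc (m₁ : ℝ≥0∞) ^ (j + 1) * a (-j - 1) = (m₁ : ℝ≥0∞) ^ j * (m₁ * a (-j - 1)) := by ring
            _ ≤ (m₁ : ℝ≥0∞) ^ j * a (-j) := by gcongr
            _ ≤ a 0 := ih.2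
    refine growth hm hm12 hv' h0 (fun k => ?_)
    calc (m₁ : ℝ≥0∞) ^ k * v' ≤ (m₁ : ℝ≥0∞) ^ k * ((m₂ : ℝ≥0∞) ^ k * a (-k)) := by
          gcongr; exact hdown k
      _ = (m₂ : ℝ≥0∞) ^ k * ((m₁ : ℝ≥0∞) ^ k * a (-k)) := by ring
      _ ≤ (m₂ : ℝ≥0∞) ^ k * a 0 := by gcongr; exact (h4 k).2
  -- all the terms from `-j` on are finite
  have hall : ∀ i : ℕ, a (-j + i) ≠ ∞ := by
    intro i
    induction i with
    | zero => simpa using hj j le_rfl
    | succ i ih =>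
      have := hfin_up _ ih
      push_cast
      rwa [← add_assoc]
  have htel : ∀ i : ℕ, ρ (-j + i) ≤ m₁ + ∑ l ∈ Finset.range (i + 1), t (-j + l) / a (-j + l) := by
    intro i
    induction i with
    | zero =>
      have h1 := hstep (-j) (hj j le_rfl)
      simp only [Finset.range_one, Finset.sum_singleton, Nat.cast_zero, add_zero, zero_add]
      exact h1.trans (by gcongr)
    | succ i ih =>
      have h1 := hstep (-j + (i + 1 : ℕ)) (hall (i + 1))
      have h2 : (-(j : ℤ) + (i + 1 : ℕ)) - 1 = -j + i := by push_cast; ring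
      rw [h2] at h1
      rw [Finset.sum_range_succ, ← add_assoc]
      exact h1.trans (by gcongr)
  refine ⟨(Finset.range (j + k₁ + 1)).map ⟨fun l : ℕ => (-(j : ℤ) + l), fun x y h => by
    simpa using h⟩, ?_, ?_⟩
  · intro k hk
    obtain ⟨l, -, rfl⟩ := Finset.mem_map.1 hk
    exact hall l
  · rw [Finset.sum_map]
    have h3 := htel (j + k₁)
    have h4 : (-(j : ℤ) + (j + k₁ : ℕ)) = k₁ := by push_cast; ring
    rw [h4] at h3
    exact hk₁.trans h3

end Pool.Agent.K3h62.HS
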