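import Pool.Agent.K3h62.HS.Key
import Pool.Agent.K3h62.HS.Line
import Pool.Agent.K3h62.HS.HSB

/-!
# The key inequality on the whole domain; orthogonality of the monomials
-/

set_option autoImplicit false

open MeasureTheory Topology Filter Set Metric TopologicalSpace
open scoped ENNReal NNReal ComplexConjugate InnerProductSpace

namespace Pool.Agent.K3h62.HS

variable {n : ℕ}

lemma ofReal_kk {K : Set (Fin n → ℂ)} {δ : Fin n → ℤ}
    (hint : IntegrableOn (fun z => ‖mono δ z‖ ^ 2) K) :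
    ENNReal.ofReal (kk K δ) = ∫⁻ z in K, ‖mono δ z‖ₑ ^ 2 := by
  unfold kk
  rw [ofReal_integral_eq_lintegral_ofReal hint (ae_of_all _ fun z => by positivity)]
  refine lintegral_congr fun z => ?_
  rw [ENNReal.ofReal_pow (norm_nonneg _), ofReal_norm]

lemma cc_ne_zero {Ω : Set (Fin n → ℂ)} (hopen : IsOpen Ω) (hne : Ω.Nonempty) (δ : Fin n → ℤ) :
    cc Ω δ ≠ 0 := by
  unfold cc
  have hm : Measurable fun z : Fin n → ℂ => ‖mono δ z‖ₑ ^ 2 := (mono_measurable δ).enorm.pow_const 2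
  rw [Ne, lintegral_eq_zero_iff hm]
  intro h
  have h1 : ∀ᵐ z ∂((volume : Measure (Fin n → ℂ)).restrict Ω), False := by
    filter_upwards [h, ae_restrict_of_ae (ae_coord (n := n))] with z hz hz0
    have := mono_ne_zero δ hz0
    simp only [Pi.zero_apply, pow_eq_zero_iff, ne_eq, OfNat.ofNat_ne_zero, not_false_eq_true,
      enorm_eq_zero] at hz
    exact this hz
  rw [ae_iff] at h1
  simp only [not_false_eq_true, Set.ofPred_true, Measure.restrict_apply_univ] at h1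
  exact (hopen.measure_pos volume hne).ne' h1

/-- The key inequality. -/
theorem key {Ω : Opens (Fin n → ℂ)} (hn : 1 ≤ n) (hconn : IsPreconnected (Ω : Set (Fin n → ℂ)))
    (hne : (Ω : Set (Fin n → ℂ)).Nonempty) (hb : Bornology.IsBounded (Ω : Set (Fin n → ℂ)))
    (hinv : InvSet (Ω : Set (Fin n → ℂ))) {f : (Fin n → ℂ) → ℂ} (hf : DifferentiableOn ℂ f Ω)
    {T : bergman Ω →L[ℂ] LL Ω} (hdense : Dense (hankelDom Ω fun z => conj (f z)))
    (hT : ∀ g (hg : g ∈ hankelDom Ω fun z => conj (f z)), T g = hankel Ω _ g hg)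
    {α β : Fin n → ℤ} (hα : cc (Ω : Set (Fin n → ℂ)) α ≠ ∞) {C : ℂ}
    (hC : IsCoeff (Ω : Set (Fin n → ℂ)) f β C) (hC0 : C ≠ 0) :
    cc (Ω : Set (Fin n → ℂ)) (α + β) ≤ cc (Ω : Set (Fin n → ℂ)) α ^ 2 /
      cc (Ω : Set (Fin n → ℂ)) (α - β) + ENNReal.ofReal (‖T (ee Ω α hα)‖ ^ 2 / ‖C‖ ^ 2) := by
  have hcn := compl_nonempty hn hb
  set S : Set (Fin n → ℂ) := (Ω : Set (Fin n → ℂ)) with hS
  set τ : ℝ := ‖T (ee Ω α hα)‖ ^ 2 / ‖C‖ ^ 2 with hτ
  have hCp : 0 < ‖C‖ := norm_pos_iff.2 hC0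
  have t1 := tendsto_cc Ω.isOpen hcn (α + β)
  have t3 := tendsto_cc Ω.isOpen hcn (α - β)
  have hint : ∀ m δ, IntegrableOn (fun z => ‖mono δ z‖ ^ 2) (KK S m) := fun m δ =>
    kk_int (KK_compact hb m) (KK_sub S m) δ
  have hle : ∀ m, ∫⁻ z in KK S m, ‖mono α z‖ₑ ^ 2 ≤ cc S α := fun m =>
    lintegral_mono_set fun z hz => (KK_sub S m hz).1
  have hpos : ∀ᶠ m in atTop, 0 < kk (KK S m) (α - β) := by
    have h1 : 0 < cc S (α - β) := pos_iff_ne_zero.2 (cc_ne_zero Ω.isOpen hne _)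
    filter_upwards [t3.eventually (eventually_gt_nhds h1)] with m hm
    rw [← ofReal_kk (hint m _)] at hm
    exact ENNReal.ofReal_pos.1 hm
  have hmain : ∀ᶠ m in atTop, ∫⁻ z in KK S m, ‖mono (α + β) z‖ₑ ^ 2 ≤
      cc S α ^ 2 / (∫⁻ z in KK S m, ‖mono (α - β) z‖ₑ ^ 2) + ENNReal.ofReal τ := by
    filter_upwards [hpos] with m hm
    have h1 := key_compact hconn hinv hf hdense hT (KK_compact hb m) (KK_sub S m) (KK_inv hinv m)
      hα hC hm
    have h2 : kk (KK S m) (α + β) ≤ kk (KK S m) α ^ 2 / kk (KK S m) (α - β) + τ := by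
      have h3 : kk (KK S m) (α + β) - kk (KK S m) α ^ 2 / kk (KK S m) (α - β) ≤ τ := by
        rw [hτ, le_div_iff₀ (by positivity)]
        linarith
      linarith
    have hk0 : 0 ≤ kk (KK S m) α := integral_nonneg fun z => by positivity
    have h4 := ENNReal.ofReal_le_ofReal h2
    rw [ENNReal.ofReal_add (by positivity) (by positivity), ENNReal.ofReal_div_of_pos hm,
      ENNReal.ofReal_pow hk0, ofReal_kk (hint m _), ofReal_kk (hint m _), ofReal_kk (hint m _)] at h4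
    refine h4.trans ?_
    gcongr
    exact hle m
  refine le_of_tendsto_of_tendsto t1 ?_ hmain
  exact (ENNReal.Tendsto.const_div t3 (Or.inr (ENNReal.pow_ne_top hα))).add_const _

section torus

/-- In this section the circle `ℝ / ℤ` has total measure one. -/
noncomputable local instance : MeasureSpace UnitAddCircle := ⟨AddCircle.haarAddCircle⟩

local instance : Measure.IsAddHaarMeasure (volume : Measure UnitAddCircle) :=
  inferInstanceAs (Measure.IsAddHaarMeasure AddCircle.haarAddCircle)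

local instance : IsProbabilityMeasure (volume : Measure UnitAddCircle) :=
  inferInstanceAs (IsProbabilityMeasure AddCircle.haarAddCircle)

lemma integral_mFourier {δ : Fin n → ℤ} (hδ : δ ≠ 0) :
    ∫ t : UnitAddTorus (Fin n), UnitAddTorus.mFourier δ t = 0 := by
  have h2 := orthonormal_iff_ite.1 (UnitAddTorus.orthonormal_mFourier (d := Fin n)) 0 δ
  simp only [ContinuousMap.inner_toLp, UnitAddTorus.mFourier_zero] at h2
  rw [if_neg (Ne.symm hδ)] at h2
  rw [← h2]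
  refine integral_congr_ae (ae_of_all _ fun t => ?_)
  simp

/-- Different monomials are orthogonal. -/
lemma mono_orth {Ω : Set (Fin n → ℂ)} (hopen : IsOpen Ω) (hinv : InvSet Ω) {α δ : Fin n → ℤ}
    (h : α ≠ δ) : ∫ z in Ω, conj (mono α z) * mono δ z = 0 := by
  set I : ℂ := ∫ z in Ω, conj (mono α z) * mono δ z with hI
  have h1 : ∀ t : UnitAddTorus (Fin n), I = UnitAddTorus.mFourier (δ - α) t * I := by
    intro t
    have hemb : MeasurableEmbedding (rot t : (Fin n → ℂ) → (Fin n → ℂ)) := by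
      refine MeasurableEmbedding.of_measurable_inverse (g := rot (-t))
        (continuous_rot_right t).measurable ?_ (continuous_rot_right (-t)).measurable
        (rot_neg_rot t)
      have : range (rot t : (Fin n → ℂ) → (Fin n → ℂ)) = univ :=
        range_eq_univ.2 fun y => ⟨rot (-t) y, rot_rot_neg t y⟩
      rw [this]; exact MeasurableSet.univ
    have h2 := (mp_rot_restrict hinv hopen.measurableSet t).integral_comp hemb
      (fun z => conj (mono α z) * mono δ z)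
    rw [hI, ← integral_const_mul, ← h2]
    refine integral_congr_ae (ae_of_all _ fun z => ?_)
    simp only
    rw [mono_rot, mono_rot, map_mul, ← UnitAddTorus.mFourier_neg, sub_eq_add_neg,
      UnitAddTorus.mFourier_add]
    ring
  have h3 : ∫ t : UnitAddTorus (Fin n), I = ∫ t : UnitAddTorus (Fin n),
      UnitAddTorus.mFourier (δ - α) t * I := integral_congr_ae (ae_of_all _ h1)
  rw [integral_mul_const, integral_mFourier (sub_ne_zero.2 (Ne.symm h)), zero_mul] at h3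
  simpa using h3

end torus

/-- index set of the square integrable monomials -/
abbrev Idx (Ω : Opens (Fin n → ℂ)) : Type := {α : Fin n → ℤ // cc (Ω : Set (Fin n → ℂ)) α ≠ ∞}

lemma inner_ee {Ω : Opens (Fin n → ℂ)} (α δ : Idx Ω) :
    ⟪ee Ω α.1 α.2, ee Ω δ.1 δ.2⟫_ℂ = ∫ z in (Ω : Set (Fin n → ℂ)), conj (mono α.1 z) * mono δ.1 z := by
  rw [Submodule.coe_inner, L2.inner_def]
  refine integral_congr_ae ?_
  have h1 : ((ee Ω α.1 α.2 : bergman Ω) : LL Ω) =ᵐ[mu Ω] mono α.1 := MemLp.coeFn_toLp (mono_memLp α.2)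
  have h2 : ((ee Ω δ.1 δ.2 : bergman Ω) : LL Ω) =ᵐ[mu Ω] mono δ.1 := MemLp.coeFn_toLp (mono_memLp δ.2)
  filter_upwards [h1, h2] with z hz1 hz2
  rw [hz1, hz2, RCLike.inner_apply, mul_comm]

lemma norm_ee {Ω : Opens (Fin n → ℂ)} (α : Idx Ω) :
    ENNReal.ofReal (‖ee Ω α.1 α.2‖ ^ 2) = cc (Ω : Set (Fin n → ℂ)) α.1 := by
  rw [ENNReal.ofReal_pow (norm_nonneg _), Submodule.coe_norm, ofReal_norm, ← lintegral_sq]
  unfold cc
  refine lintegral_congr_ae ?_
  have h1 : ((ee Ω α.1 α.2 : bergman Ω) : LL Ω) =ᵐ[mu Ω] mono α.1 := MemLp.coeFn_toLp (mono_memLp α.2)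
  filter_upwards [h1] with z hz1
  rw [hz1]

lemma inner_smul_zero {E : Type*} [NormedAddCommGroup E] [InnerProductSpace ℂ E] {x y : E}
    (h : ⟪x, y⟫_ℂ = 0) (a b : ℂ) : ⟪a • x, b • y⟫_ℂ = 0 := by
  rw [inner_smul_left, inner_smul_right, h, mul_zero, mul_zero]

lemma ee_orthonormal {Ω : Opens (Fin n → ℂ)} (hne : (Ω : Set (Fin n → ℂ)).Nonempty)
    (hinv : InvSet (Ω : Set (Fin n → ℂ))) :
    Orthonormal ℂ (fun α : Idx Ω => ((‖ee Ω α.1 α.2‖⁻¹ : ℝ) : ℂ) • ee Ω α.1 α.2) := by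
  have h0 : ∀ α : Idx Ω, ‖ee Ω α.1 α.2‖ ≠ 0 := by
    intro α h
    have h1 := norm_ee α
    rw [h] at h1
    simp only [ne_eq, OfNat.ofNat_ne_zero, not_false_eq_true, zero_pow, ENNReal.ofReal_zero] at h1
    exact cc_ne_zero Ω.isOpen hne α.1 h1.symm
  constructor
  · intro α
    rw [norm_smul, Complex.norm_real, norm_inv, norm_norm, inv_mul_cancel₀ (h0 α)]
  · intro α δ hαδ
    have h1 : ⟪ee Ω α.1 α.2, ee Ω δ.1 δ.2⟫_ℂ = 0 := by
      rw [inner_ee, mono_orth Ω.isOpen hinv (fun h => hαδ (Subtype.ext h))]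
    exact inner_smul_zero h1 _ _

/-- The Hilbert–Schmidt bound. -/
lemma sum_bound {Ω : Opens (Fin n → ℂ)} (hne : (Ω : Set (Fin n → ℂ)).Nonempty)
    (hinv : InvSet (Ω : Set (Fin n → ℂ))) {T : bergman Ω →L[ℂ] LL Ω} (hHS : IsHilbertSchmidt T) :
    ∃ B : ℝ, ∀ s : Finset (Idx Ω), ∑ α ∈ s,
      ENNReal.ofReal (‖T (ee Ω α.1 α.2)‖ ^ 2) / cc (Ω : Set (Fin n → ℂ)) α.1 ≤ ENNReal.ofReal B := by
  obtain ⟨ι, e, hs⟩ := hHS
  refine ⟨∑' k, ‖T (e k)‖ ^ 2, fun s => ?_⟩
  have h1 := hs_bound T e hs (ee_orthonormal hne hinv) s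
  refine le_trans (le_of_eq ?_) (ENNReal.ofReal_le_ofReal h1)
  rw [ENNReal.ofReal_sum_of_nonneg (fun _ _ => by positivity)]
  refine Finset.sum_congr rfl fun α _ => ?_
  have h0 : 0 < ‖ee Ω α.1 α.2‖ := by
    refine lt_of_le_of_ne (norm_nonneg _) fun h => ?_
    have h1 := norm_ee α
    rw [← h] at h1
    simp only [ne_eq, OfNat.ofNat_ne_zero, not_false_eq_true, zero_pow, ENNReal.ofReal_zero] at h1
    exact cc_ne_zero Ω.isOpen hne α.1 h1.symm
  rw [map_smul, norm_smul, Complex.norm_real, norm_inv, norm_norm, mul_pow, inv_pow,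
    ← norm_ee α, ← ENNReal.ofReal_div_of_pos (by positivity)]
  congr 1
  rw [div_eq_inv_mul]

end Pool.Agent.K3h62.HS
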