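import Pool.Agent.K3h62.HS.Exh
import Pool.Agent.K3h62.HS.Bergman

/-!
# The key inequality
-/

set_option autoImplicit false

open MeasureTheory Topology Filter Set Metric TopologicalSpace
open scoped ENNReal NNReal ComplexConjugate InnerProductSpace

namespace Pool.Agent.K3h62.HS

variable {n : ℕ}

/-- measure on `Ω` -/
noncomputable abbrev mu (Ω : Opens (Fin n → ℂ)) : Measure (Fin n → ℂ) :=
  (volume : Measure (Fin n → ℂ)).restrict (Ω : Set (Fin n → ℂ))

lemma memLp_ind {Ω : Opens (Fin n → ℂ)} {K : Set (Fin n → ℂ)} (hK : IsCompact K)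
    (hKΩ : K ⊆ (Ω : Set (Fin n → ℂ)))
    {φ : (Fin n → ℂ) → ℂ} (hφ : ContinuousOn φ K) : MemLp (K.indicator φ) 2 (mu Ω) := by
  rw [memLp_indicator_iff_restrict hK.measurableSet]
  unfold mu
  rw [Measure.restrict_restrict hK.measurableSet, inter_eq_self_of_subset_left hKΩ]
  have : IsFiniteMeasure (volume.restrict K) := ⟨by
    rw [Measure.restrict_apply_univ]; exact hK.measure_lt_top⟩
  obtain ⟨M, hM⟩ := hK.exists_bound_of_continuousOn hφ
  refine MemLp.of_bound (hφ.aestronglyMeasurable hK.measurableSet) M ?_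
  rw [ae_restrict_iff' hK.measurableSet]
  exact ae_of_all _ hM

lemma inner_ind {Ω : Opens (Fin n → ℂ)} {K : Set (Fin n → ℂ)} (hK : IsCompact K)
    (hKΩ : K ⊆ (Ω : Set (Fin n → ℂ)))
    {φ : (Fin n → ℂ) → ℂ} (hφ : ContinuousOn φ K) (g : LL Ω) :
    ⟪(memLp_ind hK hKΩ hφ).toLp _, g⟫_ℂ = ∫ z in K, conj (φ z) * g z := by
  rw [L2.inner_def]
  have h1 : ∫ z, ⟪((memLp_ind hK hKΩ hφ).toLp _ : LL Ω) z, g z⟫_ℂ ∂(mu Ω) =
      ∫ z, K.indicator (fun z => conj (φ z) * g z) z ∂(mu Ω) := by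
    refine integral_congr_ae ?_
    filter_upwards [MemLp.coeFn_toLp (memLp_ind hK hKΩ hφ)] with z hz
    rw [hz, RCLike.inner_apply]
    by_cases h : z ∈ K
    · simp [indicator_of_mem h, mul_comm]
    · simp [indicator_of_notMem h]
  rw [h1, integral_indicator hK.measurableSet]
  unfold mu
  rw [Measure.restrict_restrict hK.measurableSet, inter_eq_self_of_subset_left hKΩ]

/-- real weighted integrals -/
noncomputable def kk (K : Set (Fin n → ℂ)) (δ : Fin n → ℤ) : ℝ := ∫ z in K, ‖mono δ z‖ ^ 2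

section

variable {Ω : Opens (Fin n → ℂ)} (hconn : IsPreconnected (Ω : Set (Fin n → ℂ)))
  (hinv : InvSet (Ω : Set (Fin n → ℂ))) {K : Set (Fin n → ℂ)} (hK : IsCompact K)
  (hKs : K ⊆ star (Ω : Set (Fin n → ℂ))) (hKi : InvSet K)

include hKs in
lemma mono_contK (δ : Fin n → ℤ) : ContinuousOn (mono δ) K :=
  (mono_continuousOn δ (Ω : Set (Fin n → ℂ))).mono hKs

include hK hKs in
lemma kk_int (δ : Fin n → ℤ) : IntegrableOn (fun z => ‖mono δ z‖ ^ 2) K :=
  ((mono_contK hKs δ).norm.pow 2).integrableOn_compact hK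

/-- weighted integral of a holomorphic function times a monomial -/
lemma weighted {h : (Fin n → ℂ) → ℂ} (hd : DifferentiableOn ℂ h Ω) (γ : Fin n → ℤ) {C : ℂ}
    (hC : IsCoeff (Ω : Set (Fin n → ℂ)) h γ C) {ρ : (Fin n → ℂ) → ℝ} (hρc : ContinuousOn ρ K)
    (hρ : ∀ t, ∀ z ∈ K, ρ (rot t z) = ρ z) (hK : IsCompact K)
    (hKs : K ⊆ star (Ω : Set (Fin n → ℂ))) (hKi : InvSet K) :
    ∫ z in K, (ρ z : ℂ) * (h z * mono (-γ) z) = C * (∫ z in K, ρ z : ℝ) := by
  have hcont : ContinuousOn (fun z => (ρ z : ℂ) * (h z * mono (-γ) z)) K := by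
    refine (Complex.continuous_ofReal.comp_continuousOn hρc).mul (ContinuousOn.mul ?_ (mono_contK hKs _))
    exact hd.continuousOn.mono fun z hz => (hKs hz).1
  have h1 := integral_inv (H := fun z => h z * mono (-γ) z) (ρ := fun z => (ρ z : ℂ)) (C := C)
    hK.measurableSet hKi (fun t z hz => by rw [hρ t z hz])
    (hcont.integrableOn_compact hK) (by
      rw [ae_restrict_iff' hK.measurableSet]
      exact ae_of_all _ fun z hz => hC z (hKs hz))
  rw [h1]
  congr 1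
  exact integral_ofReal

variable (β γ : Fin n → ℤ) (lam : ℝ)

/-- the test function -/
noncomputable def phi (z : Fin n → ℂ) : ℂ := ((‖mono β z‖ ^ 2 - lam : ℝ) : ℂ) * mono γ z

include hKs in
lemma phi_cont : ContinuousOn (phi β γ lam) K := by
  unfold phi
  refine (Complex.continuous_ofReal.comp_continuousOn ?_).mul (mono_contK hKs γ)
  exact ((mono_contK hKs β).norm.pow 2).sub continuousOn_const

end

lemma conj_mono {γ : Fin n → ℤ} {z : Fin n → ℂ} (hz : ∀ j, z j ≠ 0) :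
    conj (mono γ z) = ((‖mono γ z‖ ^ 2 : ℝ) : ℂ) * mono (-γ) z := by
  have h0 := mono_ne_zero γ hz
  have h1 : ((‖mono γ z‖ ^ 2 : ℝ) : ℂ) = conj (mono γ z) * mono γ z := by
    rw [Complex.conj_mul']
    push_cast
    ring
  rw [h1, mono_neg, mul_assoc, mul_inv_cancel₀ h0, mul_one]

/-- The test function is orthogonal to the Bergman space. -/
lemma phi_orth {Ω : Opens (Fin n → ℂ)} (hconn : IsPreconnected (Ω : Set (Fin n → ℂ)))
    (hinv : InvSet (Ω : Set (Fin n → ℂ))) {K : Set (Fin n → ℂ)} (hK : IsCompact K)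
    (hKs : K ⊆ star (Ω : Set (Fin n → ℂ))) (hKi : InvSet K) (β γ : Fin n → ℤ) (lam : ℝ)
    (hlam : ∫ z in K, (‖mono β z‖ ^ 2 - lam) * ‖mono γ z‖ ^ 2 = 0)
    (g : LL Ω) (hg : g ∈ bergman Ω) :
    ⟪((memLp_ind hK (fun _ hz => (hKs hz).1) (phi_cont hKs β γ lam)).toLp _ : LL Ω), g⟫_ℂ = 0 := by
  obtain ⟨h, hd, he⟩ := hg
  obtain ⟨C, hC⟩ := exists_coeff Ω.isOpen hconn hinv hd γ
  rw [inner_ind hK (fun _ hz => (hKs hz).1) (phi_cont hKs β γ lam)]
  have h1 : ∀ᵐ z ∂(volume.restrict K), g z = h z := by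
    have h2 := ae_restrict_of_ae_restrict_of_subset (fun _ hz => (hKs hz).1 : K ⊆ (Ω : Set (Fin n → ℂ))) he
    exact h2
  have h2 : ∫ z in K, conj (phi β γ lam z) * g z =
      ∫ z in K, (((‖mono β z‖ ^ 2 - lam) * ‖mono γ z‖ ^ 2 : ℝ) : ℂ) * (h z * mono (-γ) z) := by
    refine integral_congr_ae ?_
    filter_upwards [h1, ae_restrict_mem hK.measurableSet] with z hz hzK
    rw [hz]
    unfold phi
    rw [map_mul, Complex.conj_ofReal, conj_mono (hKs hzK).2]
    push_cast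
    ring
  rw [h2, weighted hd γ hC (ρ := fun z => (‖mono β z‖ ^ 2 - lam) * ‖mono γ z‖ ^ 2) ?_ ?_ hK hKs hKi,
    hlam]
  · simp
  · exact (((mono_contK hKs β).norm.pow 2).sub continuousOn_const).mul ((mono_contK hKs γ).norm.pow 2)
  · intro t z _
    simp only [norm_mono_rot]

/-- the extension of a Hankel operator, tested against compactly supported functions -/
lemma hankel_test {Ω : Opens (Fin n → ℂ)} {f : (Fin n → ℂ) → ℂ} (hf : DifferentiableOn ℂ f Ω)
    {T : bergman Ω →L[ℂ] LL Ω} (hdense : Dense (hankelDom Ω fun z => conj (f z)))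
    (hT : ∀ g (hg : g ∈ hankelDom Ω fun z => conj (f z)), T g = hankel Ω _ g hg)
    {K : Set (Fin n → ℂ)} (hK : IsCompact K) (hKΩ : K ⊆ (Ω : Set (Fin n → ℂ)))
    {φ : (Fin n → ℂ) → ℂ} (hφ : ContinuousOn φ K)
    (horth : ∀ g ∈ bergman Ω, ⟪((memLp_ind hK hKΩ hφ).toLp _ : LL Ω), g⟫_ℂ = 0) (g : bergman Ω) :
    ⟪((memLp_ind hK hKΩ hφ).toLp _ : LL Ω), T g⟫_ℂ =
      ⟪((memLp_ind hK hKΩ (hφ.mul (hf.continuousOn.mono hKΩ))).toLp _ : LL Ω), (g : LL Ω)⟫_ℂ := by
  set P : LL Ω := (memLp_ind hK hKΩ hφ).toLp _ with hP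
  set Q : LL Ω := (memLp_ind hK hKΩ (hφ.mul (hf.continuousOn.mono hKΩ))).toLp _ with hQ
  have h1 : Continuous fun g : bergman Ω => ⟪P, T g⟫_ℂ := continuous_const.inner T.continuous
  have h2 : Continuous fun g : bergman Ω => ⟪Q, (g : LL Ω)⟫_ℂ :=
    continuous_const.inner continuous_subtype_val
  refine congrFun (h1.ext_on hdense h2 ?_) g
  intro u hu
  simp only
  rw [hT u hu]
  unfold hankel
  rw [inner_sub_right]
  have h3 : ⟪P, bergmanProj Ω (MemLp.toLp _ hu)⟫_ℂ = 0 :=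
    horth _ (Submodule.starProjection_apply_mem _ _)
  rw [h3, sub_zero, hP, inner_ind hK hKΩ hφ, hQ,
    inner_ind hK hKΩ (hφ.mul (hf.continuousOn.mono hKΩ))]
  refine integral_congr_ae ?_
  have h4 : ∀ᵐ z ∂(volume.restrict K), (MemLp.toLp _ hu : LL Ω) z = conj (f z) * (u : LL Ω) z :=
    ae_restrict_of_ae_restrict_of_subset hKΩ (MemLp.coeFn_toLp hu)
  filter_upwards [h4] with z hz
  rw [hz]
  simp only [Pi.mul_apply, map_mul]
  ring

/-- the monomial as an element of `L²` -/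
lemma mono_memLp {Ω : Opens (Fin n → ℂ)} {α : Fin n → ℤ} (h : cc (Ω : Set (Fin n → ℂ)) α ≠ ∞) :
    MemLp (mono α) 2 (mu Ω) := by
  refine ⟨(mono_measurable α).aestronglyMeasurable, ?_⟩
  rw [eLpNorm_lt_top_iff_lintegral_rpow_enorm_lt_top (by norm_num) (by norm_num)]
  simp only [ENNReal.toReal_ofNat]
  have : ∫⁻ z, ‖mono α z‖ₑ ^ (2 : ℝ) ∂(mu Ω) = cc (Ω : Set (Fin n → ℂ)) α := by
    unfold cc
    refine lintegral_congr fun z => ?_
    rw [← ENNReal.rpow_natCast]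
    norm_num
  rw [this]
  exact h.lt_top

/-- the monomial as an element of the Bergman space -/
noncomputable def ee (Ω : Opens (Fin n → ℂ)) (α : Fin n → ℤ) (h : cc (Ω : Set (Fin n → ℂ)) α ≠ ∞) :
    bergman Ω :=
  ⟨(mono_memLp h).toLp _, mono α, mono_diffOn Ω.isOpen h, MemLp.coeFn_toLp _⟩

/-- The key inequality, on a compact set. -/
theorem key_compact {Ω : Opens (Fin n → ℂ)} (hconn : IsPreconnected (Ω : Set (Fin n → ℂ)))
    (hinv : InvSet (Ω : Set (Fin n → ℂ))) {f : (Fin n → ℂ) → ℂ} (hf : DifferentiableOn ℂ f Ω)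
    {T : bergman Ω →L[ℂ] LL Ω} (hdense : Dense (hankelDom Ω fun z => conj (f z)))
    (hT : ∀ g (hg : g ∈ hankelDom Ω fun z => conj (f z)), T g = hankel Ω _ g hg)
    {K : Set (Fin n → ℂ)} (hK : IsCompact K) (hKs : K ⊆ star (Ω : Set (Fin n → ℂ)))
    (hKi : InvSet K) {α β : Fin n → ℤ} (hα : cc (Ω : Set (Fin n → ℂ)) α ≠ ∞) {C : ℂ}
    (hC : IsCoeff (Ω : Set (Fin n → ℂ)) f β C) (hpos : 0 < kk K (α - β)) :
    ‖C‖ ^ 2 * (kk K (α + β) - kk K α ^ 2 / kk K (α - β)) ≤ ‖T (ee Ω α hα)‖ ^ 2 := by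
  have hKΩ : K ⊆ (Ω : Set (Fin n → ℂ)) := fun _ hz => (hKs hz).1
  set γ := α - β with hγ
  set lam : ℝ := kk K α / kk K γ with hlam
  have i1 := kk_int hK hKs α
  have i2 := kk_int hK hKs γ
  have i3 := kk_int hK hKs (α + β)
  -- products of the norms
  have e1 : ∀ z ∈ K, ‖mono β z‖ ^ 2 * ‖mono γ z‖ ^ 2 = ‖mono α z‖ ^ 2 := by
    intro z hz
    rw [← mul_pow, ← norm_mul, ← mono_add _ _ (hKs hz).2, hγ, add_sub_cancel]
  have e2 : ∀ z ∈ K, ‖mono β z‖ ^ 2 * ‖mono α z‖ ^ 2 = ‖mono (α + β) z‖ ^ 2 := by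
    intro z hz
    rw [← mul_pow, ← norm_mul, ← mono_add _ _ (hKs hz).2, add_comm β α]
  have h0 : ∫ z in K, (‖mono β z‖ ^ 2 - lam) * ‖mono γ z‖ ^ 2 = 0 := by
    have h1 : ∫ z in K, (‖mono β z‖ ^ 2 - lam) * ‖mono γ z‖ ^ 2 =
        ∫ z in K, (‖mono α z‖ ^ 2 - lam * ‖mono γ z‖ ^ 2) := by
      refine setIntegral_congr_fun hK.measurableSet fun z hz => ?_
      rw [sub_mul, e1 z hz]
    rw [h1, integral_sub i1 (i2.const_mul lam), integral_const_mul]
    change kk K α - lam * kk K γ = 0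
    rw [hlam]
    field_simp
    ring
  set D : ℝ := kk K (α + β) - kk K α ^ 2 / kk K γ with hD
  have h1 : ∫ z in K, (‖mono β z‖ ^ 2 - lam) * ‖mono α z‖ ^ 2 = D := by
    have h2 : ∫ z in K, (‖mono β z‖ ^ 2 - lam) * ‖mono α z‖ ^ 2 =
        ∫ z in K, (‖mono (α + β) z‖ ^ 2 - lam * ‖mono α z‖ ^ 2) := by
      refine setIntegral_congr_fun hK.measurableSet fun z hz => ?_
      rw [sub_mul, e2 z hz]
    rw [h2, integral_sub i3 (i1.const_mul lam), integral_const_mul]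
    change kk K (α + β) - lam * kk K α = D
    rw [hD, hlam]
    ring
  -- the norm of the test function
  set P : LL Ω := (memLp_ind hK hKΩ (phi_cont hKs β γ lam)).toLp _ with hP
  have h2 : ‖P‖ ^ 2 = D := by
    have h3 : (⟪P, P⟫_ℂ).re = ‖P‖ ^ 2 := by
      rw [inner_self_eq_norm_sq_to_K]
      norm_cast
    have h4 : ⟪P, P⟫_ℂ = (D : ℂ) := by
      have h5 : ∀ᵐ z ∂(volume.restrict K), P z = phi β γ lam z := by
        have h6 := ae_restrict_of_ae_restrict_of_subset hKΩ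
          (MemLp.coeFn_toLp (memLp_ind hK hKΩ (phi_cont hKs β γ lam)))
        filter_upwards [h6, ae_restrict_mem hK.measurableSet] with z hz hzK
        rw [hP, hz, indicator_of_mem hzK]
      have h7 : ⟪P, P⟫_ℂ = ∫ z in K, conj (phi β γ lam z) * P z := by
        exact inner_ind hK hKΩ (phi_cont hKs β γ lam) P
      have h8 : ∫ z in K, conj (phi β γ lam z) * P z =
          ∫ z in K, (((‖mono β z‖ ^ 2 - lam) * ‖mono α z‖ ^ 2 -
            lam * ((‖mono β z‖ ^ 2 - lam) * ‖mono γ z‖ ^ 2) : ℝ) : ℂ) := by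
        refine integral_congr_ae ?_
        filter_upwards [h5, ae_restrict_mem hK.measurableSet] with z hz hzK
        rw [hz, Complex.conj_mul']
        unfold phi
        rw [norm_mul, Complex.norm_real, Real.norm_eq_abs, ← Complex.ofReal_pow, mul_pow, sq_abs,
          ← e1 z hzK]
        congr 1
        ring
      rw [h7, h8]
      have h9 : ∫ z in K, (((‖mono β z‖ ^ 2 - lam) * ‖mono α z‖ ^ 2 -
            lam * ((‖mono β z‖ ^ 2 - lam) * ‖mono γ z‖ ^ 2) : ℝ) : ℂ) =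
          ((∫ z in K, ((‖mono β z‖ ^ 2 - lam) * ‖mono α z‖ ^ 2 -
            lam * ((‖mono β z‖ ^ 2 - lam) * ‖mono γ z‖ ^ 2)) : ℝ) : ℂ) := integral_ofReal
      rw [h9]
      congr 1
      have j1 : IntegrableOn (fun z => (‖mono β z‖ ^ 2 - lam) * ‖mono α z‖ ^ 2) K :=
        ((((mono_contK hKs β).norm.pow 2).sub continuousOn_const).mul
          ((mono_contK hKs α).norm.pow 2)).integrableOn_compact hK
      have j2 : IntegrableOn (fun z => (‖mono β z‖ ^ 2 - lam) * ‖mono γ z‖ ^ 2) K :=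
        ((((mono_contK hKs β).norm.pow 2).sub continuousOn_const).mul
          ((mono_contK hKs γ).norm.pow 2)).integrableOn_compact hK
      rw [integral_sub j1 (j2.const_mul lam), integral_const_mul, h0, h1, mul_zero, sub_zero]
    rw [h4, Complex.ofReal_re] at h3
    exact h3.symm
  -- the pairing
  have h3 : ⟪P, T (ee Ω α hα)⟫_ℂ = conj (C * (D : ℂ)) := by
    rw [hP, hankel_test hf hdense hT hK hKΩ (phi_cont hKs β γ lam)
      (fun g hg => phi_orth hconn hinv hK hKs hKi β γ lam h0 g hg),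
      inner_ind hK hKΩ ((phi_cont hKs β γ lam).mul (hf.continuousOn.mono hKΩ))]
    have h4 : ∀ᵐ z ∂(volume.restrict K), ((ee Ω α hα : bergman Ω) : LL Ω) z = mono α z :=
      ae_restrict_of_ae_restrict_of_subset hKΩ (MemLp.coeFn_toLp (mono_memLp hα))
    have h5 : ∫ z in K, conj ((phi β γ lam * f) z) * ((ee Ω α hα : bergman Ω) : LL Ω) z =
        ∫ z in K, conj ((((‖mono β z‖ ^ 2 - lam) * ‖mono α z‖ ^ 2 : ℝ) : ℂ) *
          (f z * mono (-β) z)) := by
      refine integral_congr_ae ?_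
      filter_upwards [h4, ae_restrict_mem hK.measurableSet] with z hz hzK
      rw [hz]
      have h6 : mono γ z = mono α z * mono (-β) z := by
        rw [← mono_add _ _ (hKs hzK).2, hγ, sub_eq_add_neg]
      have h7 : ((‖mono α z‖ ^ 2 : ℝ) : ℂ) = conj (mono α z) * mono α z := by
        rw [Complex.conj_mul']; push_cast; ring
      simp only [Pi.mul_apply]
      unfold phi
      rw [h6]
      simp only [map_mul, Complex.conj_ofReal]
      rw [Complex.ofReal_mul, h7]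
      ring
    rw [h5, integral_conj, weighted hf β hC
      (ρ := fun z => (‖mono β z‖ ^ 2 - lam) * ‖mono α z‖ ^ 2) ?_ ?_ hK hKs hKi, h1]
    · exact (((mono_contK hKs β).norm.pow 2).sub continuousOn_const).mul
        ((mono_contK hKs α).norm.pow 2)
    · intro t z _
      simp only [norm_mono_rot]
  have hD0 : 0 ≤ D := by rw [← h2]; positivity
  have h4 : ‖C‖ * D ≤ ‖P‖ * ‖T (ee Ω α hα)‖ := by
    have h5 := norm_inner_le_norm (𝕜 := ℂ) P (T (ee Ω α hα))
    rw [h3, RCLike.norm_conj, norm_mul, Complex.norm_real, Real.norm_eq_abs, abs_of_nonneg hD0] at h5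
    exact h5
  rcases hD0.eq_or_lt with h5 | h5
  · rw [← h5, mul_zero]; positivity
  · have h6 : (‖C‖ * D) ^ 2 ≤ (‖P‖ * ‖T (ee Ω α hα)‖) ^ 2 := by
      have : 0 ≤ ‖C‖ * D := by positivity
      gcongr
    rw [mul_pow, mul_pow, h2] at h6
    have h7 : (‖C‖ ^ 2 * D) * D ≤ ‖T (ee Ω α hα)‖ ^ 2 * D := by nlinarith
    exact le_of_mul_le_mul_right h7 h5

end Pool.Agent.K3h62.HS
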