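import Pool.Agent.K3h62.HS.Ineq

/-!
# Hilbert–Schmidt Hankel operators on bounded Reinhardt domains vanish
-/

set_option autoImplicit false

open MeasureTheory Topology Filter Set Metric TopologicalSpace
open scoped ENNReal NNReal ComplexConjugate InnerProductSpace

namespace Pool.Agent.K3h62.HS

variable {n : ℕ}

lemma exists_two_values {Ω : Set (Fin n → ℂ)} (hopen : IsOpen Ω) (hne : Ω.Nonempty)
    {β : Fin n → ℤ} (hβ : β ≠ 0) :
    ∃ z₁ ∈ star Ω, ∃ z₂ ∈ star Ω, ‖mono β z₁‖ < ‖mono β z₂‖ := by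
  classical
  obtain ⟨z, hz, hz0⟩ := exists_star_point hopen hne
  obtain ⟨j, hj⟩ := Function.ne_iff.1 hβ
  have hj' : β j ≠ 0 := hj
  have hzs : z ∈ star Ω := ⟨hz, hz0⟩
  -- scaling one coordinate
  have hcont : Continuous fun r : ℝ => Function.update z j ((r : ℂ) * z j) := by
    refine continuous_pi fun i => ?_
    by_cases h : i = j
    · subst h; simp; fun_prop
    · simp [h]; exact continuous_const
  have h1 : Function.update z j (((1 : ℝ) : ℂ) * z j) = z := by simp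
  have h2 : ∀ᶠ r : ℝ in 𝓝 1, Function.update z j ((r : ℂ) * z j) ∈ star Ω := by
    have := hcont.continuousAt (x := 1)
    refine this.eventually ?_
    simp only
    rw [h1]
    exact (isOpen_star hopen).mem_nhds hzs
  obtain ⟨r, hr1, hr⟩ : ∃ r : ℝ, 1 < r ∧ Function.update z j ((r : ℂ) * z j) ∈ star Ω := by
    obtain ⟨ε, hε, hball⟩ := Metric.eventually_nhds_iff_ball.1 h2
    refine ⟨1 + ε / 2, by linarith, hball _ ?_⟩
    rw [mem_ball, dist_eq_norm, add_sub_cancel_left, Real.norm_eq_abs, abs_of_pos (by positivity)]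
    linarith
  have h3 : ‖mono β (Function.update z j ((r : ℂ) * z j))‖ = r ^ β j * ‖mono β z‖ := by
    unfold mono
    rw [← Finset.mul_prod_erase Finset.univ _ (Finset.mem_univ j),
      ← Finset.mul_prod_erase Finset.univ (fun i => z i ^ β i) (Finset.mem_univ j)]
    rw [norm_mul, norm_mul, Function.update_self, mul_zpow, norm_mul, norm_zpow (r : ℂ),
      Complex.norm_real, Real.norm_eq_abs, abs_of_pos (by linarith), mul_assoc]
    congr 3
    refine Finset.prod_congr rfl fun i hi => ?_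
    rw [Function.update_of_ne (Finset.mem_erase.1 hi).1]
  have h4 : 0 < ‖mono β z‖ := norm_pos_iff.2 (mono_ne_zero β hz0)
  rcases lt_or_gt_of_ne hj' with h5 | h5
  · refine ⟨_, hr, z, hzs, ?_⟩
    rw [h3]
    have : r ^ β j < 1 := zpow_lt_one_of_neg₀ hr1 h5
    nlinarith
  · refine ⟨z, hzs, _, hr, ?_⟩
    rw [h3]
    have : 1 < r ^ β j := one_lt_zpow₀ hr1 h5
    nlinarith

lemma cc_finite {Ω : Set (Fin n → ℂ)} (hb : Bornology.IsBounded Ω) {α : Fin n → ℤ}
    (hα : ∀ i, 0 ≤ α i) : cc Ω α ≠ ∞ := by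
  obtain ⟨R, hR⟩ := hb.subset_closedBall (0 : Fin n → ℂ)
  have hcont : Continuous (mono α) := by
    unfold mono
    refine continuous_finsetProd _ fun i _ => ?_
    exact (continuous_apply i).zpow₀ (α i) fun z => Or.inr (hα i)
  obtain ⟨M, hM⟩ := (isCompact_closedBall (0 : Fin n → ℂ) R).exists_bound_of_continuousOn
    hcont.continuousOn
  have h1 : cc Ω α ≤ ∫⁻ _ in closedBall (0 : Fin n → ℂ) R, ENNReal.ofReal M ^ 2 := by
    unfold cc
    refine (lintegral_mono_set hR).trans ?_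
    refine setLIntegral_mono measurable_const fun z hz => ?_
    gcongr
    rw [← ofReal_norm]
    exact ENNReal.ofReal_le_ofReal (hM z hz)
  refine ne_top_of_le_ne_top ?_ h1
  rw [setLIntegral_const]
  exact ENNReal.mul_ne_top (ENNReal.pow_ne_top ENNReal.ofReal_ne_top)
    (isCompact_closedBall _ _).measure_lt_top.ne

lemma zpow_bound {U : Set (Fin n → ℂ)} (hU0 : ∀ z ∈ U, ∀ j, z j ≠ 0)
    (α β : Fin n → ℤ) {M : ℝ≥0} (hM : ∀ z ∈ U, (M : ℝ) ≤ ‖mono β z‖ ^ 2) (k : ℕ) :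
    (M : ℝ≥0∞) ^ k * cc U α ≤ cc U (α + (k : ℤ) • β) := by
  unfold cc
  rw [← lintegral_const_mul _ ((mono_measurable α).enorm.pow_const 2)]
  refine setLIntegral_mono ((mono_measurable _).enorm.pow_const 2) fun z hz => ?_
  have h1 : mono (α + (k : ℤ) • β) z = mono β z ^ k * mono α z := by
    rw [mono_add _ _ (hU0 z hz), mul_comm]
    congr 1
    unfold mono
    rw [← Finset.prod_pow]
    refine Finset.prod_congr rfl fun j _ => ?_
    rw [Pi.smul_apply, smul_eq_mul, mul_comm, zpow_mul, zpow_natCast]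
  rw [h1, enorm_mul, mul_pow, enorm_pow, ← pow_mul, mul_comm k 2, pow_mul]
  gcongr
  have h2 := hM z hz
  rw [← ofReal_norm, ← ENNReal.ofReal_pow (norm_nonneg _), ← ENNReal.ofReal_coe_nnreal]
  exact ENNReal.ofReal_le_ofReal h2

lemma zpow_bound' {U : Set (Fin n → ℂ)} (hU0 : ∀ z ∈ U, ∀ j, z j ≠ 0)
    (α β : Fin n → ℤ) {m : ℝ≥0} (hm : ∀ z ∈ U, ‖mono β z‖ ^ 2 ≤ (m : ℝ)) (k : ℕ) :
    cc U α ≤ (m : ℝ≥0∞) ^ k * cc U (α + (-(k : ℤ)) • β) := by
  unfold cc
  rw [← lintegral_const_mul _ ((mono_measurable _).enorm.pow_const 2)]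
  refine setLIntegral_mono (((mono_measurable _).enorm.pow_const 2).const_mul _) fun z hz => ?_
  have h1 : mono α z = mono β z ^ k * mono (α + (-(k : ℤ)) • β) z := by
    have h2 : mono β z ^ k = mono ((k : ℤ) • β) z := by
      unfold mono
      rw [← Finset.prod_pow]
      refine Finset.prod_congr rfl fun j _ => ?_
      rw [Pi.smul_apply, smul_eq_mul, mul_comm, zpow_mul, zpow_natCast]
    rw [h2, ← mono_add _ _ (hU0 z hz)]
    congr 1
    rw [neg_smul]
    abel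
  rw [h1, enorm_mul, mul_pow, enorm_pow, ← pow_mul, mul_comm k 2, pow_mul]
  gcongr
  have h2 := hm z hz
  rw [← ofReal_norm, ← ENNReal.ofReal_pow (norm_nonneg _), ← ENNReal.ofReal_coe_nnreal]
  exact ENNReal.ofReal_le_ofReal h2

lemma cc_mono {U V : Set (Fin n → ℂ)} (h : U ⊆ V) (α : Fin n → ℤ) : cc U α ≤ cc V α :=
  lintegral_mono_set h

/-- The main theorem, in terms of the invariance under the torus. -/
theorem main_inv {Ω : Opens (Fin n → ℂ)} (hn : 2 ≤ n)
    (hconn : IsPreconnected (Ω : Set (Fin n → ℂ)))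
    (hne : (Ω : Set (Fin n → ℂ)).Nonempty) (hb : Bornology.IsBounded (Ω : Set (Fin n → ℂ)))
    (hinv : InvSet (Ω : Set (Fin n → ℂ))) {f : (Fin n → ℂ) → ℂ} (hf : DifferentiableOn ℂ f Ω)
    (hHS : HankelHSL Ω fun z => conj (f z)) : ∃ C : ℂ, ∀ z ∈ Ω, f z = C := by
  classical
  obtain ⟨hdense, T, hT, hTS⟩ := hHS
  -- the coefficients
  by_contra hcon
  obtain ⟨β, hβ, C, hC, hC0⟩ : ∃ β : Fin n → ℤ, β ≠ 0 ∧ ∃ C : ℂ,
      IsCoeff (Ω : Set (Fin n → ℂ)) f β C ∧ C ≠ 0 := by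
    by_contra h
    push Not at h
    apply hcon
    obtain ⟨C₀, hC₀⟩ := exists_coeff Ω.isOpen hconn hinv hf 0
    refine ⟨C₀, const_of_coeff Ω.isOpen hinv hf (fun β hβ => ?_) hC₀⟩
    obtain ⟨C, hC⟩ := exists_coeff Ω.isOpen hconn hinv hf β
    have := h β hβ C hC
    rwa [this] at hC
  have hn1 : 1 ≤ n := by omega
  set S : Set (Fin n → ℂ) := (Ω : Set (Fin n → ℂ)) with hS
  -- the transversal direction
  obtain ⟨j, hj⟩ := Function.ne_iff.1 hβ
  have hj' : β j ≠ 0 := hj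
  obtain ⟨i, hij⟩ : ∃ i : Fin n, i ≠ j := by
    have : Nontrivial (Fin n) := Fin.nontrivial_iff_two_le.2 hn
    exact exists_ne j
  set base : ℕ → Fin n → ℤ := fun N => Pi.single i (N : ℤ) with hbase
  have hbase0 : ∀ N, cc S (base N) ≠ ∞ := fun N => cc_finite hb fun l => by
    by_cases h : l = i
    · subst h; simp [hbase]
    · simp [hbase, h]
  have hinj : ∀ N N' : ℕ, ∀ k k' : ℤ, base N + k • β = base N' + k' • β → N = N' ∧ k = k' := by
    intro N N' k k' h
    have h1 := congrFun h j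
    simp only [hbase, Pi.add_apply, Pi.smul_apply, smul_eq_mul, Pi.single_eq_of_ne (Ne.symm hij),
      zero_add] at h1
    have h2 : k = k' := mul_right_cancel₀ hj' h1
    refine ⟨?_, h2⟩
    have h3 := congrFun h i
    simp only [hbase, Pi.add_apply, Pi.smul_apply, smul_eq_mul, Pi.single_eq_same, h2,
      add_left_inj] at h3
    exact_mod_cast h3
  -- two values of the monomial
  obtain ⟨z₁, hz₁, z₂, hz₂, hlt⟩ := exists_two_values Ω.isOpen hne hβ
  set q : (Fin n → ℂ) → ℝ := fun z => ‖mono β z‖ ^ 2 with hq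
  have hq1 : 0 < q z₁ := by
    have := norm_pos_iff.2 (mono_ne_zero β hz₁.2)
    positivity
  have hq12 : q z₁ < q z₂ := by
    simp only [hq]
    gcongr
  set d : ℝ := (q z₂ - q z₁) / 5 with hd
  have hdp : 0 < d := by rw [hd]; linarith
  set m₂ : ℝ≥0 := ⟨q z₁ + d, by positivity⟩ with hm₂
  set m₁ : ℝ≥0 := ⟨q z₁ + 2 * d, by positivity⟩ with hm₁
  set M₁ : ℝ≥0 := ⟨q z₁ + 3 * d, by positivity⟩ with hM₁
  set M₂ : ℝ≥0 := ⟨q z₁ + 4 * d, by positivity⟩ with hM₂
  have c0 : 0 < m₂ := by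
    rw [← NNReal.coe_pos]
    change 0 < q z₁ + d
    positivity
  have c1 : m₂ < m₁ := by
    rw [← NNReal.coe_lt_coe]
    change q z₁ + d < q z₁ + 2 * d
    linarith
  have c2 : m₁ < M₁ := by
    rw [← NNReal.coe_lt_coe]
    change q z₁ + 2 * d < q z₁ + 3 * d
    linarith
  have c3 : M₁ < M₂ := by
    rw [← NNReal.coe_lt_coe]
    change q z₁ + 3 * d < q z₁ + 4 * d
    linarith
  have hqc : ContinuousOn q (star S) := (mono_continuousOn β S).norm.pow 2
  set U₂ : Set (Fin n → ℂ) := star S ∩ q ⁻¹' Ioi (M₂ : ℝ) with hU₂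
  set U₁ : Set (Fin n → ℂ) := star S ∩ q ⁻¹' Iio (m₂ : ℝ) with hU₁
  have hU₂o : IsOpen U₂ := hqc.isOpen_inter_preimage (isOpen_star Ω.isOpen) isOpen_Ioi
  have hU₁o : IsOpen U₁ := hqc.isOpen_inter_preimage (isOpen_star Ω.isOpen) isOpen_Iio
  have hU₂n : U₂.Nonempty := ⟨z₂, hz₂, by
    change q z₁ + 4 * d < q z₂
    rw [hd]; linarith⟩
  have hU₁n : U₁.Nonempty := ⟨z₁, hz₁, by
    change q z₁ < q z₁ + d
    linarith⟩
  have hU₂S : U₂ ⊆ S := fun z hz => hz.1.1
  have hU₁S : U₁ ⊆ S := fun z hz => hz.1.1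
  -- the terms
  set t : (Fin n → ℤ) → ℝ≥0∞ := fun α =>
    if h : cc S α ≠ ∞ then ENNReal.ofReal (‖T (ee Ω α h)‖ ^ 2 / ‖C‖ ^ 2) else 0 with ht
  have hCp : 0 < ‖C‖ := norm_pos_iff.2 hC0
  have hline : ∀ N : ℕ, ∃ s : Finset ℤ, (∀ k ∈ s, cc S (base N + k • β) ≠ ∞) ∧
      (M₁ : ℝ≥0∞) ≤ m₁ + ∑ k ∈ s, t (base N + k • β) / cc S (base N + k • β) := by
    intro N
    refine line_sum (a := fun k => cc S (base N + k • β)) (t := fun k => t (base N + k • β))
      (v := cc U₂ (base N)) (v' := cc U₁ (base N)) (by simpa using hbase0 N)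
      (fun k => cc_ne_zero Ω.isOpen hne _) ?_ ?_ c0 c1 c2 c3 (cc_ne_zero hU₂o hU₂n _)
      (cc_ne_zero hU₁o hU₁n _) ?_ ?_
    · intro k hk
      simp only [ht, dif_pos hk]
      exact ENNReal.ofReal_ne_top
    · intro k hk
      simp only [ht, dif_pos hk]
      have h1 := key hn1 hconn hne hb hinv hf hdense hT hk hC hC0
      have e1 : base N + (k + 1) • β = base N + k • β + β := by rw [add_smul, one_smul]; abel
      have e2 : base N + (k - 1) • β = base N + k • β - β := by rw [sub_smul, one_smul]; abel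
      rw [e1, e2]
      exact h1
    · intro k
      refine (zpow_bound (fun z hz => hz.1.2) (base N) β (M := M₂)
        (fun z hz => le_of_lt hz.2) k).trans (cc_mono hU₂S _)
    · intro k
      refine (zpow_bound' (fun z hz => hz.1.2) (base N) β (m := m₂)
        (fun z hz => le_of_lt hz.2) k).trans ?_
      gcongr
      exact cc_mono hU₁S _
  choose s hs1 hs2 using hline
  obtain ⟨B, hB⟩ := sum_bound hne hinv hTS
  -- the sum over `L` lines
  have hsum : ∀ L : ℕ, (L : ℝ≥0∞) * (M₁ - m₁ : ℝ≥0) ≤ ENNReal.ofReal (B / ‖C‖ ^ 2) := by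
    intro L
    have h1 : (L : ℝ≥0∞) * (M₁ - m₁ : ℝ≥0) ≤ ∑ N ∈ Finset.range L, ∑ k ∈ s N,
        t (base N + k • β) / cc S (base N + k • β) := by
      have h2 : ∀ N ∈ Finset.range L, ((M₁ - m₁ : ℝ≥0) : ℝ≥0∞) ≤ ∑ k ∈ s N,
          t (base N + k • β) / cc S (base N + k • β) := by
        intro N _
        rw [ENNReal.coe_sub]
        exact tsub_le_iff_left.2 (hs2 N)
      have h3 := Finset.card_nsmul_le_sum (Finset.range L) _ _ h2
      rw [Finset.card_range, nsmul_eq_mul] at h3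
      exact h3
    refine h1.trans ?_
    rw [Finset.sum_sigma']
    -- the index map
    set F : Finset (Σ _ : ℕ, ℤ) := (Finset.range L).sigma s with hF
    have hFs : ∀ x ∈ F, cc S (base x.1 + x.2 • β) ≠ ∞ := fun x hx =>
      hs1 x.1 x.2 (Finset.mem_sigma.1 hx).2
    have h4 : ∑ x ∈ F, t (base x.1 + x.2 • β) / cc S (base x.1 + x.2 • β) =
        ∑ x ∈ F.attach, ENNReal.ofReal (‖T (ee Ω (base x.1.1 + x.1.2 • β) (hFs x.1 x.2))‖ ^ 2) /
          cc S (base x.1.1 + x.1.2 • β) / ENNReal.ofReal (‖C‖ ^ 2) := by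
      rw [← Finset.sum_attach F]
      refine Finset.sum_congr rfl fun x _ => ?_
      simp only [ht, dif_pos (hFs x.1 x.2)]
      rw [ENNReal.ofReal_div_of_pos (by positivity), div_eq_mul_inv, div_eq_mul_inv,
        div_eq_mul_inv, div_eq_mul_inv]
      ring
    rw [h4]
    set ix : F → Idx Ω := fun x => ⟨base x.1.1 + x.1.2 • β, hFs x.1 x.2⟩ with hix
    have hixi : Function.Injective ix := by
      intro x y hxy
      have h5 := congrArg Subtype.val hxy
      obtain ⟨h6, h7⟩ := hinj _ _ _ _ h5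
      apply Subtype.ext
      exact Sigma.ext h6 (heq_of_eq h7)
    have h6 := hB (F.attach.map ⟨ix, hixi⟩)
    rw [Finset.sum_map] at h6
    simp only [Function.Embedding.coeFn_mk, hix] at h6
    simp_rw [div_eq_mul_inv _ (ENNReal.ofReal (‖C‖ ^ 2))]
    rw [← Finset.sum_mul, ENNReal.ofReal_div_of_pos (by positivity), div_eq_mul_inv]
    gcongr
  -- contradiction
  have hpos : 0 < M₁ - m₁ := tsub_pos_of_lt c2
  obtain ⟨L, hL⟩ := exists_nat_gt (Real.toNNReal (B / ‖C‖ ^ 2) / (M₁ - m₁))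
  have h1 := hsum L
  have h2 : ((L * (M₁ - m₁) : ℝ≥0) : ℝ≥0∞) ≤ (Real.toNNReal (B / ‖C‖ ^ 2) : ℝ≥0) := by
    push_cast
    exact h1
  rw [ENNReal.coe_le_coe] at h2
  rw [div_lt_iff₀ hpos] at hL
  exact absurd h2 (not_le.2 hL)

lemma invSet_of_rotate {Ω : Opens (Fin n → ℂ)} (h : ∀ z ∈ Ω, ∀ θ : Fin n → ℝ,
    (fun j => Complex.exp (θ j * Complex.I) * z j) ∈ Ω) : InvSet (Ω : Set (Fin n → ℂ)) := by
  intro t z hz
  have h1 : ∀ j, ∃ x : ℝ, (x : UnitAddCircle) = t j := fun j => QuotientAddGroup.mk_surjective (t j)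
  choose x hx using h1
  have h2 := h z hz fun j => 2 * Real.pi * x j
  have h3 : rot t z = fun j => Complex.exp (((2 * Real.pi * x j : ℝ) : ℂ) * Complex.I) * z j := by
    funext j
    rw [rot_apply, ← hx j, AddCircle.toCircle_apply_mk, Circle.coe_exp]
    simp
  rw [h3]
  exact h2

end Pool.Agent.K3h62.HS
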