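import Pool.Agent.K3h62.HS.Torus

/-!
# Laurent monomials on Reinhardt domains
-/

set_option autoImplicit false

open MeasureTheory Topology Filter Set Metric
open scoped ENNReal NNReal ComplexConjugate

namespace Pool.Agent.K3h62.HS

/-- In this file the circle `ℝ / ℤ` has total measure one. -/
noncomputable local instance : MeasureSpace UnitAddCircle := ⟨AddCircle.haarAddCircle⟩

local instance : Measure.IsAddHaarMeasure (volume : Measure UnitAddCircle) :=
  inferInstanceAs (Measure.IsAddHaarMeasure AddCircle.haarAddCircle)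

local instance : IsProbabilityMeasure (volume : Measure UnitAddCircle) :=
  inferInstanceAs (IsProbabilityMeasure AddCircle.haarAddCircle)

variable {n : ℕ}

/-- the Laurent monomial `z ^ α` -/
noncomputable def mono (α : Fin n → ℤ) (z : Fin n → ℂ) : ℂ := ∏ j, z j ^ α j

lemma mono_rot (α : Fin n → ℤ) (t : UnitAddTorus (Fin n)) (z : Fin n → ℂ) :
    mono α (rot t z) = UnitAddTorus.mFourier α t * mono α z := by
  unfold mono UnitAddTorus.mFourier
  simp only [ContinuousMap.coe_mk]
  rw [← Finset.prod_mul_distrib]
  refine Finset.prod_congr rfl fun j _ => ?_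
  rw [rot_apply, mul_zpow, fourier_apply, AddCircle.toCircle_zsmul, Circle.coe_zpow]

lemma norm_mono_rot (α : Fin n → ℤ) (t : UnitAddTorus (Fin n)) (z : Fin n → ℂ) :
    ‖mono α (rot t z)‖ = ‖mono α z‖ := by
  unfold mono
  rw [norm_prod, norm_prod]
  refine Finset.prod_congr rfl fun j _ => ?_
  rw [norm_zpow, norm_zpow, norm_rot_apply]

lemma mono_add (α β : Fin n → ℤ) {z : Fin n → ℂ} (hz : ∀ j, z j ≠ 0) :
    mono (α + β) z = mono α z * mono β z := by
  unfold mono
  rw [← Finset.prod_mul_distrib]
  refine Finset.prod_congr rfl fun j _ => ?_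
  rw [Pi.add_apply, zpow_add₀ (hz j)]

lemma mono_neg (α : Fin n → ℤ) (z : Fin n → ℂ) : mono (-α) z = (mono α z)⁻¹ := by
  unfold mono
  rw [← Finset.prod_inv_distrib]
  refine Finset.prod_congr rfl fun j _ => ?_
  rw [Pi.neg_apply, zpow_neg]

lemma mono_zero (z : Fin n → ℂ) : mono 0 z = 1 := by
  simp [mono]

lemma mono_ne_zero (α : Fin n → ℤ) {z : Fin n → ℂ} (hz : ∀ j, z j ≠ 0) : mono α z ≠ 0 :=
  Finset.prod_ne_zero_iff.2 fun j _ => zpow_ne_zero _ (hz j)

lemma mono_differentiableAt (α : Fin n → ℤ) {z : Fin n → ℂ} (hz : ∀ j, z j ≠ 0 ∨ 0 ≤ α j) :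
    DifferentiableAt ℂ (mono α) z := by
  have key : ∀ S : Finset (Fin n), DifferentiableAt ℂ (fun z : Fin n → ℂ => ∏ j ∈ S, z j ^ α j) z := by
    intro S
    induction S using Finset.induction_on with
    | empty => simp
    | insert j S hj ih =>
      simp only [Finset.prod_insert hj]
      have h1 : DifferentiableAt ℂ (fun w : ℂ => w ^ α j) (z j) :=
        differentiableAt_zpow.2 (hz j)
      have h2 : DifferentiableAt ℂ (fun z : Fin n → ℂ => z j ^ α j) z :=
        DifferentiableAt.comp (g := fun w : ℂ => w ^ α j) z h1 (differentiableAt_apply j z)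
      exact h2.mul ih
  exact key Finset.univ

lemma mono_diffOn_star (α : Fin n → ℤ) (Ω : Set (Fin n → ℂ)) :
    DifferentiableOn ℂ (mono α) (star Ω) := fun _ hz =>
  (mono_differentiableAt α fun j => Or.inl (hz.2 j)).differentiableWithinAt

lemma mono_measurable (α : Fin n → ℤ) : Measurable (mono α) := by
  unfold mono
  refine Finset.measurable_prod _ fun j _ => ?_
  exact (measurable_pi_apply j).pow_const _

lemma mono_continuousOn (α : Fin n → ℤ) (Ω : Set (Fin n → ℂ)) : ContinuousOn (mono α) (star Ω) :=
  (mono_diffOn_star α Ω).continuousOn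

/-- The Laurent coefficient `C` of `f` is the constant value of the torus average of
`f z ^ (-β)`. -/
def IsCoeff (Ω : Set (Fin n → ℂ)) (f : (Fin n → ℂ) → ℂ) (β : Fin n → ℤ) (C : ℂ) : Prop :=
  ∀ z ∈ star Ω, avg (fun w => f w * mono (-β) w) z = C

theorem exists_coeff {Ω : Set (Fin n → ℂ)} (hopen : IsOpen Ω) (hconn : IsPreconnected Ω)
    (hinv : InvSet Ω) {f : (Fin n → ℂ) → ℂ} (hf : DifferentiableOn ℂ f Ω) (β : Fin n → ℤ) :
    ∃ C, IsCoeff Ω f β C :=
  avg_const hopen hconn hinv
    ((hf.mono fun _ hz => hz.1).mul (mono_diffOn_star (-β) Ω))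

/-- A holomorphic function with vanishing coefficients is constant. -/
theorem const_of_coeff {Ω : Set (Fin n → ℂ)} (hopen : IsOpen Ω)
    (hinv : InvSet Ω) {f : (Fin n → ℂ) → ℂ} (hf : DifferentiableOn ℂ f Ω)
    (h : ∀ β : Fin n → ℤ, β ≠ 0 → IsCoeff Ω f β 0) {C : ℂ} (hC : IsCoeff Ω f 0 C) :
    ∀ z ∈ Ω, f z = C := by
  have h1 : ∀ z ∈ star Ω, f z = C := by
    intro z hz
    have hcont : Continuous (fun t : UnitAddTorus (Fin n) => f (rot t z)) :=
      hf.continuousOn.comp_continuous (continuous_rot_left z) fun t => hinv t z hz.1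
    set g : C(UnitAddTorus (Fin n), ℂ) := ⟨fun t => f (rot t z) - C, hcont.sub continuous_const⟩
      with hg
    have hcoef : ∀ β : Fin n → ℤ, UnitAddTorus.mFourierCoeff g β = 0 := by
      intro β
      have e1 : ∀ t : UnitAddTorus (Fin n), f (rot t z) * mono (-β) (rot t z) =
          mono (-β) z * (UnitAddTorus.mFourier (-β) t • f (rot t z)) := by
        intro t
        rw [mono_rot, smul_eq_mul]
        ring
      have e2 : avg (fun w => f w * mono (-β) w) z =
          mono (-β) z * ∫ t : UnitAddTorus (Fin n), UnitAddTorus.mFourier (-β) t • f (rot t z) := by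
        unfold avg
        simp_rw [e1]
        rw [integral_const_mul]
      have e3 : UnitAddTorus.mFourierCoeff g β =
          (∫ t : UnitAddTorus (Fin n), UnitAddTorus.mFourier (-β) t • f (rot t z)) -
            ∫ t : UnitAddTorus (Fin n), UnitAddTorus.mFourier (-β) t • C := by
        unfold UnitAddTorus.mFourierCoeff
        rw [← integral_sub]
        · refine integral_congr_ae (ae_of_all _ fun t => ?_)
          simp only [hg, ContinuousMap.coe_mk]
          rw [smul_sub]
        · exact ((UnitAddTorus.mFourier (-β)).continuous.smul hcont).integrable_of_hasCompactSupport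
            (HasCompactSupport.of_compactSpace _)
        · exact ((UnitAddTorus.mFourier (-β)).continuous.smul
            continuous_const).integrable_of_hasCompactSupport (HasCompactSupport.of_compactSpace _)
      have e4 : ∫ t : UnitAddTorus (Fin n), UnitAddTorus.mFourier (-β) t • C =
          if β = 0 then C else 0 := by
        rw [integral_smul_const]
        have h2 := orthonormal_iff_ite.1 (UnitAddTorus.orthonormal_mFourier (d := Fin n)) β 0
        simp only [ContinuousMap.inner_toLp, UnitAddTorus.mFourier_zero] at h2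
        have h3 : ∫ t : UnitAddTorus (Fin n), UnitAddTorus.mFourier (-β) t =
            if β = 0 then (1 : ℂ) else 0 := by
          rw [← h2]
          refine integral_congr_ae (ae_of_all _ fun t => ?_)
          simp [UnitAddTorus.mFourier_neg]
        rw [h3]
        split_ifs <;> simp
      rw [e3, e4]
      by_cases hβ : β = 0
      · subst hβ
        have h5 := hC z hz
        rw [e2, neg_zero, mono_zero, one_mul] at h5
        rw [neg_zero, h5, if_pos rfl, sub_self]
      · have h5 := h β hβ z hz
        rw [e2] at h5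
        rcases mul_eq_zero.1 h5 with h6 | h6
        · exact absurd h6 (mono_ne_zero _ hz.2)
        · rw [h6, if_neg hβ, sub_zero]
    have hsum : Summable (UnitAddTorus.mFourierCoeff g) := by
      have : UnitAddTorus.mFourierCoeff g = fun _ => 0 := funext hcoef
      rw [this]; exact summable_zero
    have h7 := UnitAddTorus.hasSum_mFourier_series_apply_of_summable hsum 0
    simp only [hcoef, zero_smul] at h7
    have h8 := h7.unique hasSum_zero
    simp only [hg, ContinuousMap.coe_mk, rot_zero] at h8
    exact sub_eq_zero.1 h8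
  -- density
  intro z hz
  by_contra hne
  have hU : IsOpen {w | w ∈ Ω ∧ f w ≠ C} :=
    hf.continuousOn.isOpen_inter_preimage hopen (isOpen_compl_singleton (x := C))
  obtain ⟨w, hw, hw0⟩ := exists_star_point hU ⟨z, hz, hne⟩
  exact hw.2 (h1 w ⟨hw.1, hw0⟩)

end Pool.Agent.K3h62.HS
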