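import Mathlib

/-!
# Torus averages of holomorphic functions on Reinhardt domains

The average of a holomorphic function over the orbits of the torus action is constant on the points
of a connected Reinhardt domain all of whose coordinates are nonzero.
-/

set_option autoImplicit false

open MeasureTheory Topology Filter Set Metric
open scoped ENNReal NNReal ComplexConjugate

namespace Pool.Agent.K3h62.HS

/-- In this file the circle `ℝ / ℤ` has total measure one. -/
noncomputable local instance : MeasureSpace UnitAddCircle := ⟨AddCircle.haarAddCircle⟩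

local instance : Measure.IsAddHaarMeasure (volume : Measure UnitAddCircle) :=
  inferInstanceAs (Measure.IsAddHaarMeasure AddCircle.haarAddCircle)

local instance : IsProbabilityMeasure (volume : Measure UnitAddCircle) :=
  inferInstanceAs (IsProbabilityMeasure AddCircle.haarAddCircle)

variable {n : ℕ}

/-- rotation of the coordinates -/
noncomputable def rot (t : UnitAddTorus (Fin n)) (z : Fin n → ℂ) : Fin n → ℂ :=
  fun j => (AddCircle.toCircle (t j) : ℂ) * z j

lemma rot_apply (t : UnitAddTorus (Fin n)) (z : Fin n → ℂ) (j : Fin n) :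
    rot t z j = (AddCircle.toCircle (t j) : ℂ) * z j := rfl

lemma rot_add (s t : UnitAddTorus (Fin n)) (z : Fin n → ℂ) :
    rot (s + t) z = rot s (rot t z) := by
  funext j
  simp only [rot_apply, Pi.add_apply, AddCircle.toCircle_add, Circle.coe_mul]
  ring

lemma rot_zero (z : Fin n → ℂ) : rot 0 z = z := by
  funext j
  simp [rot_apply, AddCircle.toCircle_zero]

lemma rot_neg_rot (t : UnitAddTorus (Fin n)) (z : Fin n → ℂ) : rot (-t) (rot t z) = z := by
  rw [← rot_add, neg_add_cancel, rot_zero]

lemma rot_rot_neg (t : UnitAddTorus (Fin n)) (z : Fin n → ℂ) : rot t (rot (-t) z) = z := by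
  rw [← rot_add, add_neg_cancel, rot_zero]

lemma norm_rot_apply (t : UnitAddTorus (Fin n)) (z : Fin n → ℂ) (j : Fin n) :
    ‖rot t z j‖ = ‖z j‖ := by
  rw [rot_apply, norm_mul, Circle.norm_coe, one_mul]

lemma rot_ne_zero (t : UnitAddTorus (Fin n)) {z : Fin n → ℂ} (hz : ∀ j, z j ≠ 0) (j : Fin n) :
    rot t z j ≠ 0 := by
  rw [← norm_ne_zero_iff, norm_rot_apply, norm_ne_zero_iff]
  exact hz j

lemma continuous_rot : Continuous (fun q : UnitAddTorus (Fin n) × (Fin n → ℂ) => rot q.1 q.2) := by
  unfold rot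
  refine continuous_pi fun j => ?_
  have h1 : Continuous (fun q : UnitAddTorus (Fin n) × (Fin n → ℂ) => AddCircle.toCircle (q.1 j)) :=
    AddCircle.continuous_toCircle.comp ((continuous_apply j).comp continuous_fst)
  have h2 : Continuous (fun q : UnitAddTorus (Fin n) × (Fin n → ℂ) =>
      (AddCircle.toCircle (q.1 j) : ℂ)) := continuous_subtype_val.comp h1
  exact h2.mul ((continuous_apply j).comp continuous_snd)

lemma continuous_rot_left (z : Fin n → ℂ) : Continuous (fun t => rot t z) :=
  continuous_rot.comp (by fun_prop : Continuous fun t : UnitAddTorus (Fin n) => (t, z))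

lemma continuous_rot_right (t : UnitAddTorus (Fin n)) : Continuous (rot t) :=
  continuous_rot.comp (by fun_prop : Continuous fun z : Fin n → ℂ => (t, z))

lemma dist_rot (t : UnitAddTorus (Fin n)) (z w : Fin n → ℂ) : dist (rot t z) (rot t w) = dist z w := by
  have h : ∀ j, nndist (rot t z j) (rot t w j) = nndist (z j) (w j) := by
    intro j
    rw [← NNReal.coe_inj, coe_nndist, coe_nndist, dist_eq_norm, dist_eq_norm, rot_apply, rot_apply,
      ← mul_sub, norm_mul, Circle.norm_coe, one_mul]
  rw [dist_pi_def, dist_pi_def]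
  simp only [h]

lemma isometry_rot (t : UnitAddTorus (Fin n)) : Isometry (rot t) :=
  Isometry.of_dist_eq (dist_rot t)

/-- rotations preserve the Lebesgue measure -/
lemma mp_rot (t : UnitAddTorus (Fin n)) :
    MeasurePreserving (rot t) (volume : Measure (Fin n → ℂ)) volume := by
  have h1 : ∀ c : Circle, MeasurePreserving (fun z : ℂ => (c : ℂ) * z) volume volume := fun c =>
    (rotation c).measurePreserving
  exact volume_preserving_pi (f := fun j : Fin n => fun z : ℂ => (AddCircle.toCircle (t j) : ℂ) * z)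
    fun j => h1 _

/-- The function is invariant under rotations. -/
def Inv {β : Type*} (ρ : (Fin n → ℂ) → β) : Prop := ∀ t z, ρ (rot t z) = ρ z

/-- The set is invariant under rotations. -/
def InvSet (K : Set (Fin n → ℂ)) : Prop := ∀ t, ∀ z ∈ K, rot t z ∈ K

lemma InvSet.mem_iff {K : Set (Fin n → ℂ)} (hK : InvSet K) (t : UnitAddTorus (Fin n))
    (z : Fin n → ℂ) : rot t z ∈ K ↔ z ∈ K := by
  refine ⟨fun h => ?_, hK t z⟩
  have := hK (-t) _ h
  rwa [rot_neg_rot] at this

lemma InvSet.preimage {K : Set (Fin n → ℂ)} (hK : InvSet K) (t : UnitAddTorus (Fin n)) :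
    rot t ⁻¹' K = K := by
  ext z
  exact hK.mem_iff t z

lemma InvSet.compl {K : Set (Fin n → ℂ)} (hK : InvSet K) : InvSet Kᶜ := by
  intro t z hz h
  exact hz ((hK.mem_iff t z).1 h)

lemma mp_rot_restrict {K : Set (Fin n → ℂ)} (hK : InvSet K) (hm : MeasurableSet K)
    (t : UnitAddTorus (Fin n)) :
    MeasurePreserving (rot t) (volume.restrict K) (volume.restrict K) := by
  have := (mp_rot t).restrict_preimage hm
  rwa [hK.preimage t] at this

/-- points with nonzero coordinates -/
def star (Ω : Set (Fin n → ℂ)) : Set (Fin n → ℂ) := {z | z ∈ Ω ∧ ∀ j, z j ≠ 0}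

lemma star_inv {Ω : Set (Fin n → ℂ)} (h : InvSet Ω) : InvSet (star Ω) := fun t z hz =>
  ⟨h t z hz.1, rot_ne_zero t hz.2⟩

lemma isOpen_star {Ω : Set (Fin n → ℂ)} (h : IsOpen Ω) : IsOpen (star Ω) := by
  have : star Ω = Ω ∩ ⋂ j : Fin n, {z : Fin n → ℂ | z j ≠ 0} := by
    ext z; simp [star]
  rw [this]
  exact h.inter (isOpen_iInter_of_finite fun j => isOpen_ne_fun (continuous_apply j) continuous_const)

/-- average over the circle -/
lemma integral_circle {E : Type*} [NormedAddCommGroup E] [NormedSpace ℝ E] (φ : ℂ → E) (w : ℂ) :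
    ∫ s : UnitAddCircle, φ ((AddCircle.toCircle s : ℂ) * w) = Real.circleAverage φ 0 ‖w‖ := by
  have h0 : ∫ s : UnitAddCircle, φ ((AddCircle.toCircle s : ℂ) * w) =
      ∫ x in (0 : ℝ)..(0 + 1), φ ((AddCircle.toCircle (x : UnitAddCircle) : ℂ) * w) := by
    have h1 := AddCircle.intervalIntegral_preimage (T := (1 : ℝ)) 0
      (fun s : AddCircle (1 : ℝ) => φ ((AddCircle.toCircle s : ℂ) * w))
    rw [h1]
    have h2 := AddCircle.integral_haarAddCircle (T := (1 : ℝ))
      (f := fun s : AddCircle (1 : ℝ) => φ ((AddCircle.toCircle s : ℂ) * w))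
    rw [inv_one, one_smul] at h2
    exact h2
  rw [h0, Real.circleAverage_eq_integral_add (Complex.arg w)]
  have h3 : ∀ x : ℝ, φ ((AddCircle.toCircle (x : UnitAddCircle) : ℂ) * w) =
      (fun θ : ℝ => φ (circleMap 0 ‖w‖ (θ + Complex.arg w))) (2 * Real.pi * x) := by
    intro x
    simp only
    congr 1
    rw [AddCircle.toCircle_apply_mk, Circle.coe_exp, circleMap_zero]
    conv_lhs => rw [← Complex.norm_mul_exp_arg_mul_I w]
    rw [mul_left_comm, ← Complex.exp_add]
    congr 2
    push_cast
    ring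
  simp_rw [h3]
  rw [intervalIntegral.integral_comp_mul_left (fun θ : ℝ => φ (circleMap 0 ‖w‖ (θ + Complex.arg w)))
    (by positivity : (2 * Real.pi) ≠ 0)]
  simp

/-- the circle averages of a holomorphic function on an annulus are equal -/
lemma circleAverage_annulus {φ : ℂ → ℂ} {r R : ℝ} (hr : 0 < r) (hle : r ≤ R)
    (hφ : ∀ z : ℂ, r ≤ ‖z‖ → ‖z‖ ≤ R → DifferentiableAt ℂ φ z) :
    Real.circleAverage φ 0 R = Real.circleAverage φ 0 r := by
  rw [Real.circleAverage_eq_circleIntegral hr.ne', Real.circleAverage_eq_circleIntegral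
    (hr.trans_le hle).ne']
  congr 1
  apply Complex.circleIntegral_sub_center_inv_smul_eq_of_differentiable_on_annulus_off_countable hr
    hle countable_empty
  · intro z hz
    have h1 := mem_closedBall_zero_iff.1 hz.1
    have h2 : r ≤ ‖z‖ := by
      by_contra h
      exact hz.2 (mem_ball_zero_iff.2 (not_le.1 h))
    exact (hφ z h2 h1).continuousAt.continuousWithinAt
  · intro z hz
    have h1 := mem_ball_zero_iff.1 hz.1.1
    have h2 : r < ‖z‖ := by
      by_contra h
      exact hz.1.2 (mem_closedBall_zero_iff.2 (not_lt.1 h))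
    exact hφ z h2.le h1.le

lemma circleAverage_annulus' {φ : ℂ → ℂ} {r R : ℝ} (hr : 0 < r) (hR : 0 < R)
    (hφ : ∀ z : ℂ, min r R ≤ ‖z‖ → ‖z‖ ≤ max r R → DifferentiableAt ℂ φ z) :
    Real.circleAverage φ 0 R = Real.circleAverage φ 0 r := by
  rcases le_total r R with h | h
  · rw [min_eq_left h, max_eq_right h] at hφ
    exact circleAverage_annulus hr h hφ
  · rw [min_eq_right h, max_eq_left h] at hφ
    exact (circleAverage_annulus hR h hφ).symm

/-- the average over the torus -/
noncomputable def avg (H : (Fin n → ℂ) → ℂ) (z : Fin n → ℂ) : ℂ :=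
  ∫ t : UnitAddTorus (Fin n), H (rot t z)

lemma rot_single (j : Fin n) (s : UnitAddCircle) (z : Fin n → ℂ) :
    rot (Pi.single j s) z = Function.update z j ((AddCircle.toCircle s : ℂ) * z j) := by
  funext i
  by_cases h : i = j
  · subst h; simp [rot_apply]
  · simp [rot_apply, h, AddCircle.toCircle_zero]

lemma rot_update (j : Fin n) (t : UnitAddTorus (Fin n)) (z : Fin n → ℂ) (w : ℂ) :
    rot t (Function.update z j w) =
      Function.update (rot t z) j ((AddCircle.toCircle (t j) : ℂ) * w) := by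
  funext i
  by_cases h : i = j
  · subst h; simp [rot_apply]
  · simp [rot_apply, h]

/-- the torus average, with an inner average over one coordinate -/
lemma avg_eq_coord {Ω : Set (Fin n → ℂ)} (hinv : InvSet Ω) {H : (Fin n → ℂ) → ℂ}
    (hc : ContinuousOn H Ω) {w : Fin n → ℂ} (hw : w ∈ Ω) (j : Fin n) :
    avg H w = ∫ t : UnitAddTorus (Fin n),
      Real.circleAverage (fun ζ => H (Function.update (rot t w) j ζ)) 0 ‖w j‖ := by
  have h1 : ∀ s : UnitAddCircle, avg H w =
      ∫ t : UnitAddTorus (Fin n), H (rot (Pi.single j s) (rot t w)) := by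
    intro s
    unfold avg
    have := integral_add_left_eq_self (μ := (volume : Measure (UnitAddTorus (Fin n))))
      (fun t => H (rot t w)) (Pi.single j s)
    rw [← this]
    simp only [rot_add]
  have h2 : avg H w = ∫ s : UnitAddCircle, ∫ t : UnitAddTorus (Fin n),
      H (rot (Pi.single j s) (rot t w)) := by
    simp_rw [← h1]
    simp
  have hcont : Continuous (Function.uncurry fun (s : UnitAddCircle) (t : UnitAddTorus (Fin n)) =>
      H (rot (Pi.single j s) (rot t w))) := by
    have h3 : Continuous (fun q : UnitAddCircle × UnitAddTorus (Fin n) =>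
        rot (Pi.single j q.1) (rot q.2 w)) := by
      have h4 : Continuous (fun q : UnitAddCircle × UnitAddTorus (Fin n) =>
          ((Pi.single j q.1 : UnitAddTorus (Fin n)), rot q.2 w)) := by
        refine Continuous.prodMk ?_ ((continuous_rot_left w).comp continuous_snd)
        refine continuous_pi fun i => ?_
        by_cases h : i = j
        · subst h; simp; exact continuous_fst
        · simp [h]; exact continuous_const
      exact continuous_rot.comp h4
    refine hc.comp_continuous h3 fun q => hinv _ _ (hinv _ _ hw)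
  rw [h2, integral_integral_swap (hcont.integrable_of_hasCompactSupport
    (HasCompactSupport.of_compactSpace _))]
  refine integral_congr_ae (ae_of_all _ fun t => ?_)
  simp only
  rw [← norm_rot_apply t w j, ← integral_circle]
  simp only [rot_single]

/-- changing one coordinate -/
lemma avg_update {Ω : Set (Fin n → ℂ)} (hopen : IsOpen Ω) (hinv : InvSet Ω)
    {H : (Fin n → ℂ) → ℂ} (hH : DifferentiableOn ℂ H (star Ω)) {z₀ : Fin n → ℂ} {r : ℝ}
    (hball : ball z₀ r ⊆ Ω) {w : Fin n → ℂ} (hw : w ∈ ball z₀ r) (hw0 : ∀ j, w j ≠ 0) (j : Fin n)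
    {ζ : ℂ} (hζ : ζ ≠ 0) (hζr : dist ζ (z₀ j) < r) :
    avg H (Function.update w j ζ) = avg H w := by
  have hr : 0 < r := lt_of_le_of_lt dist_nonneg hζr
  have hcoord : ∀ i, dist (w i) (z₀ i) < r := fun i => lt_of_le_of_lt (dist_le_pi_dist w z₀ i) hw
  have hupd : ∀ ξ : ℂ, dist ξ (z₀ j) < r → Function.update w j ξ ∈ Ω := by
    intro ξ hξ
    apply hball
    rw [mem_ball, dist_pi_lt_iff hr]
    intro i
    by_cases h : i = j
    · subst h; simpa using hξ
    · simpa [h] using hcoord i
  -- every complex number with modulus between the moduli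
  have hupd2 : ∀ ξ : ℂ, min ‖w j‖ ‖ζ‖ ≤ ‖ξ‖ → ‖ξ‖ ≤ max ‖w j‖ ‖ζ‖ →
      Function.update w j ξ ∈ Ω := by
    intro ξ h1 h2
    -- the point on the ray of `z₀ j`
    obtain ⟨e, he, hez⟩ : ∃ e : ℂ, ‖e‖ = 1 ∧ z₀ j = ‖z₀ j‖ * e := by
      refine ⟨Complex.exp (Complex.arg (z₀ j) * Complex.I), Complex.norm_exp_ofReal_mul_I _, ?_⟩
      exact (Complex.norm_mul_exp_arg_mul_I _).symm
    have h3 : dist ((‖ξ‖ : ℂ) * e) (z₀ j) < r := by
      rw [hez, dist_eq_norm, ← sub_mul, norm_mul, he, mul_one]
      rw [← Complex.ofReal_sub, Complex.norm_real, Real.norm_eq_abs]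
      have ha : |‖w j‖ - ‖z₀ j‖| < r := lt_of_le_of_lt (abs_norm_sub_norm_le _ _) (by
        rw [← dist_eq_norm]; exact hcoord j)
      have hb : |‖ζ‖ - ‖z₀ j‖| < r := lt_of_le_of_lt (abs_norm_sub_norm_le _ _) (by
        rw [← dist_eq_norm]; exact hζr)
      rw [abs_lt] at ha hb ⊢
      rcases le_total ‖w j‖ ‖ζ‖ with h | h
      · rw [min_eq_left h] at h1
        rw [max_eq_right h] at h2
        constructor <;> linarith [ha.1, ha.2, hb.1, hb.2]
      · rw [min_eq_right h] at h1
        rw [max_eq_left h] at h2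
        constructor <;> linarith [ha.1, ha.2, hb.1, hb.2]
    have h4 := hupd _ h3
    by_cases hξ0 : ξ = 0
    · subst hξ0
      simpa using h4
    -- rotate
    obtain ⟨s, hs⟩ : ∃ s : UnitAddCircle, (AddCircle.toCircle s : ℂ) * ((‖ξ‖ : ℂ) * e) = ξ := by
      have he0 : e ≠ 0 := by
        intro h; rw [h, norm_zero] at he; exact zero_ne_one he
      have hξn : (‖ξ‖ : ℂ) ≠ 0 := by exact_mod_cast (norm_ne_zero_iff.2 hξ0)
      have hc : ‖ξ / ((‖ξ‖ : ℂ) * e)‖ = 1 := by
        rw [norm_div, norm_mul, he, mul_one, Complex.norm_real, norm_norm, div_self]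
        exact norm_ne_zero_iff.2 hξ0
      obtain ⟨s, hs⟩ := (AddCircle.homeomorphCircle (T := (1 : ℝ)) one_ne_zero).surjective
        ⟨ξ / ((‖ξ‖ : ℂ) * e), by simpa [Submonoid.unitSphere] using hc⟩
      refine ⟨s, ?_⟩
      rw [AddCircle.homeomorphCircle_apply] at hs
      have hs' : (AddCircle.toCircle s : ℂ) = ξ / ((‖ξ‖ : ℂ) * e) := by rw [hs]
      rw [hs', div_mul_cancel₀]
      exact mul_ne_zero hξn he0
    have h5 := hinv (Pi.single j s) _ h4
    rw [rot_single, Function.update_idem, Function.update_self, hs] at h5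
    exact h5
  have hc : ContinuousOn H (star Ω) := hH.continuousOn
  have hws : w ∈ star Ω := ⟨hball hw, hw0⟩
  have hws' : Function.update w j ζ ∈ star Ω := by
    refine ⟨hupd ζ hζr, fun i => ?_⟩
    by_cases h : i = j
    · subst h; simpa using hζ
    · simpa [h] using hw0 i
  rw [avg_eq_coord (star_inv hinv) hc hws' j, avg_eq_coord (star_inv hinv) hc hws j]
  refine integral_congr_ae (ae_of_all _ fun t => ?_)
  simp only [Function.update_self]
  have h6 : (fun ξ => H (Function.update (rot t (Function.update w j ζ)) j ξ)) =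
      fun ξ => H (Function.update (rot t w) j ξ) := by
    funext ξ
    rw [rot_update, Function.update_idem]
  rw [h6]
  refine circleAverage_annulus' (norm_pos_iff.2 (hw0 j)) (norm_pos_iff.2 hζ) fun ξ h1 h2 => ?_
  have hξ0 : ξ ≠ 0 := by
    intro h0
    rw [h0, norm_zero] at h1
    have : 0 < min ‖w j‖ ‖ζ‖ := lt_min (norm_pos_iff.2 (hw0 j)) (norm_pos_iff.2 hζ)
    linarith
  have h7 : Function.update (rot t w) j ξ ∈ star Ω := by
    have h8 : Function.update (rot t w) j ξ =
        rot t (Function.update w j ((AddCircle.toCircle (-(t j)) : ℂ) * ξ)) := by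
      rw [rot_update, ← mul_assoc, ← Circle.coe_mul, ← AddCircle.toCircle_add, add_neg_cancel,
        AddCircle.toCircle_zero, Circle.coe_one, one_mul]
    refine ⟨?_, fun i => ?_⟩
    · rw [h8]
      apply hinv
      apply hupd2
      · rw [norm_mul, Circle.norm_coe, one_mul]; exact h1
      · rw [norm_mul, Circle.norm_coe, one_mul]; exact h2
    · by_cases h : i = j
      · subst h; simpa using hξ0
      · simp only [Function.update_of_ne h]
        exact rot_ne_zero t hw0 i
  have h9 : DifferentiableAt ℂ H (Function.update (rot t w) j ξ) :=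
    (hH _ h7).differentiableAt ((isOpen_star hopen).mem_nhds h7)
  have h10 : DifferentiableAt ℂ (fun ξ : ℂ => Function.update (rot t w) j ξ) ξ := by
    rw [differentiableAt_pi]
    intro i
    by_cases h : i = j
    · subst h; simp
    · simp [h]
  exact DifferentiableAt.comp ξ h9 h10


lemma avg_ball {Ω : Set (Fin n → ℂ)} (hopen : IsOpen Ω) (hinv : InvSet Ω)
    {H : (Fin n → ℂ) → ℂ} (hH : DifferentiableOn ℂ H (star Ω)) {z₀ : Fin n → ℂ} {r : ℝ}
    (hball : ball z₀ r ⊆ Ω) {w w' : Fin n → ℂ} (hw : w ∈ ball z₀ r) (hw0 : ∀ j, w j ≠ 0)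
    (hw' : w' ∈ ball z₀ r) (hw0' : ∀ j, w' j ≠ 0) : avg H w' = avg H w := by
  classical
  have hr : 0 < r := lt_of_le_of_lt dist_nonneg hw
  have key : ∀ S : Finset (Fin n), avg H (fun i => if i ∈ S then w' i else w i) = avg H w := by
    intro S
    induction S using Finset.induction_on with
    | empty => simp
    | insert j S hj ih =>
      rw [← ih]
      have h1 : (fun i => if i ∈ insert j S then w' i else w i) =
          Function.update (fun i => if i ∈ S then w' i else w i) j (w' j) := by
        funext i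
        by_cases h : i = j
        · subst h; simp
        · simp [h]
      rw [h1]
      apply avg_update hopen hinv hH hball
      · rw [mem_ball, dist_pi_lt_iff hr]
        intro i
        split_ifs
        · exact lt_of_le_of_lt (dist_le_pi_dist w' z₀ i) hw'
        · exact lt_of_le_of_lt (dist_le_pi_dist w z₀ i) hw
      · intro i
        split_ifs
        · exact hw0' i
        · exact hw0 i
      · exact hw0' j
      · exact lt_of_le_of_lt (dist_le_pi_dist w' z₀ j) hw'
  have h := key Finset.univ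
  simpa using h

lemma null_coord : (volume : Measure (Fin n → ℂ)) {z | ∃ j, z j = 0} = 0 := by
  have h1 : {z : Fin n → ℂ | ∃ j, z j = 0} = ⋃ j, {z : Fin n → ℂ | z j = 0} := by
    ext z; simp
  rw [h1, measure_iUnion_null_iff]
  intro j
  exact Measure.pi_hyperplane (fun _ => (volume : Measure ℂ)) j 0

lemma ae_coord : ∀ᵐ z : Fin n → ℂ, ∀ j, z j ≠ 0 := by
  rw [ae_iff]
  simpa using null_coord (n := n)

lemma exists_star_point {U : Set (Fin n → ℂ)} (hU : IsOpen U) (hne : U.Nonempty) :
    ∃ z ∈ U, ∀ j, z j ≠ 0 := by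
  have h1 : volume U ≠ 0 := (hU.measure_pos volume hne).ne'
  by_contra hcon
  push Not at hcon
  apply h1
  exact measure_mono_null (fun z hz => hcon z hz) null_coord

/-- The torus average of a holomorphic function is constant. -/
theorem avg_const {Ω : Set (Fin n → ℂ)} (hopen : IsOpen Ω) (hconn : IsPreconnected Ω)
    (hinv : InvSet Ω) {H : (Fin n → ℂ) → ℂ} (hH : DifferentiableOn ℂ H (star Ω)) :
    ∃ C : ℂ, ∀ z ∈ star Ω, avg H z = C := by
  classical
  by_cases hne : Ω.Nonempty
  swap
  · exact ⟨0, fun z hz => absurd ⟨z, hz.1⟩ hne⟩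
  have hr : ∀ z : Ω, ∃ r : ℝ, 0 < r ∧ ball (z : Fin n → ℂ) r ⊆ Ω := fun z =>
    Metric.isOpen_iff.1 hopen z z.2
  choose r hr hball using hr
  have hp : ∀ z : Ω, ∃ w ∈ ball (z : Fin n → ℂ) (r z), ∀ j, w j ≠ 0 := fun z =>
    exists_star_point isOpen_ball ⟨z, mem_ball_self (hr z)⟩
  choose p hp hp0 using hp
  have hloc : IsLocallyConstant (fun z : Ω => avg H (p z)) := by
    rw [IsLocallyConstant.iff_eventually_eq]
    intro z
    have h1 : ∀ᶠ y : Ω in 𝓝 z, (y : Fin n → ℂ) ∈ ball (z : Fin n → ℂ) (r z) :=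
      continuous_subtype_val.continuousAt.eventually (ball_mem_nhds _ (hr z))
    filter_upwards [h1] with y hy
    obtain ⟨x, hx, hx0⟩ := exists_star_point (isOpen_ball.inter isOpen_ball)
      (⟨y, hy, mem_ball_self (hr y)⟩ : (ball (z : Fin n → ℂ) (r z) ∩ ball (y : Fin n → ℂ) (r y)).Nonempty)
    rw [avg_ball hopen hinv hH (hball y) hx.2 hx0 (hp y) (hp0 y),
      avg_ball hopen hinv hH (hball z) hx.1 hx0 (hp z) (hp0 z)]
  have : PreconnectedSpace Ω := isPreconnected_iff_preconnectedSpace.1 hconn
  obtain ⟨z₁, hz₁⟩ := hne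
  refine ⟨avg H (p ⟨z₁, hz₁⟩), fun z hz => ?_⟩
  have h2 := hloc.apply_eq_of_preconnectedSpace ⟨z, hz.1⟩ ⟨z₁, hz₁⟩
  refine Eq.trans ?_ h2
  exact (avg_ball hopen hinv hH (hball ⟨z, hz.1⟩) (hp ⟨z, hz.1⟩) (hp0 _) (mem_ball_self (hr _)) hz.2)

/-- Integration of a torus invariant multiple. -/
theorem integral_inv {K : Set (Fin n → ℂ)} (hK : MeasurableSet K) (hKi : InvSet K)
    {H : (Fin n → ℂ) → ℂ} {ρ : (Fin n → ℂ) → ℂ} (hρ : ∀ t, ∀ z ∈ K, ρ (rot t z) = ρ z)
    (hint : IntegrableOn (fun z => ρ z * H z) K) {C : ℂ} (hC : ∀ᵐ z ∂(volume.restrict K), avg H z = C) :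
    ∫ z in K, ρ z * H z = C * ∫ z in K, ρ z := by
  set μ : Measure (Fin n → ℂ) := volume.restrict K with hμ
  set ν : Measure (UnitAddTorus (Fin n)) := volume with hν
  have hgm : Measurable (Function.uncurry fun (t : UnitAddTorus (Fin n)) (x : Fin n → ℂ) => rot t x) :=
    continuous_rot.measurable
  have hskew : MeasurePreserving (fun p : UnitAddTorus (Fin n) × (Fin n → ℂ) =>
      (p.1, rot p.1 p.2)) (ν.prod μ) (ν.prod μ) := by
    refine (MeasurePreserving.id ν).skew_product hgm ?_
    exact ae_of_all _ fun t => (mp_rot_restrict hKi hK t).map_eq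
  have hK1 : Integrable (fun p : UnitAddTorus (Fin n) × (Fin n → ℂ) =>
      ρ (rot p.1 p.2) * H (rot p.1 p.2)) (ν.prod μ) := by
    have h1 : Integrable (fun p : UnitAddTorus (Fin n) × (Fin n → ℂ) => ρ p.2 * H p.2)
        (ν.prod μ) := by
      have : Integrable (fun z => ρ z * H z) μ := hint
      exact this.comp_snd ν
    exact hskew.integrable_comp_of_integrable h1
  have e1 : ∀ t, ∫ z, ρ (rot t z) * H (rot t z) ∂μ = ∫ z, ρ z * H z ∂μ := by
    intro t
    have hemb : MeasurableEmbedding (rot t : (Fin n → ℂ) → (Fin n → ℂ)) := by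
      refine MeasurableEmbedding.of_measurable_inverse (g := rot (-t))
        (continuous_rot_right t).measurable ?_ (continuous_rot_right (-t)).measurable
        (rot_neg_rot t)
      have : range (rot t : (Fin n → ℂ) → (Fin n → ℂ)) = univ :=
        range_eq_univ.2 fun y => ⟨rot (-t) y, rot_rot_neg t y⟩
      rw [this]; exact MeasurableSet.univ
    exact (mp_rot_restrict hKi hK t).integral_comp hemb (fun z => ρ z * H z)
  have e2 : ∫ z, ρ z * H z ∂μ = ∫ t, ∫ z, ρ (rot t z) * H (rot t z) ∂μ ∂ν := by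
    simp_rw [e1]
    simp [hν]
  rw [e2, integral_integral_swap hK1]
  have e3 : (fun z => ∫ t, ρ (rot t z) * H (rot t z) ∂ν) =ᵐ[μ] fun z => C * ρ z := by
    have h1 : ∀ᵐ z ∂μ, z ∈ K := ae_restrict_mem hK
    filter_upwards [hC, h1] with z hz hzK
    have h2 : ∀ t, ρ (rot t z) * H (rot t z) = ρ z * H (rot t z) := fun t => by
      rw [hρ t z hzK]
    simp_rw [h2]
    rw [integral_const_mul]
    unfold avg at hz
    rw [hz, mul_comm]
  rw [integral_congr_ae e3, integral_const_mul]

end Pool.Agent.K3h62.HS
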